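import Pool.Agent.X261.RO.Kum

/-!
Certificates of irreducibility over finite fields, and an example over the field with eleven elements.
-/

set_option autoImplicit false
set_option linter.all false

open Polynomial

namespace Pool.Agent.X261.RO.Ce

open Pool.Agent.X261.TW.Ex (evL addL smulL mulL ev_addL ev_smulL ev_mulL)

section Lists

variable {K : Type*} [CommRing K]

/-- zeros in front -/
def padL : ℕ → List ℤ → List ℤ
  | 0, l => l
  | n + 1, l => 0 :: padL n l

/-- substitution of the `r`-th power -/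
def exL (r : ℕ) : List ℤ → List ℤ
  | [] => []
  | a :: l => a :: padL (r - 1) (exL r l)

/-- all coefficients are divisible by `r` -/
def zL (r : ℤ) : List ℤ → Bool
  | [] => true
  | a :: l => (a % r == 0) && zL r l

theorem ev_padL (n : ℕ) (l : List ℤ) (x : K) : evL (padL n l) x = x ^ n * evL l x := by
  induction n with
  | zero => simp [padL]
  | succ n ih =>
    simp only [padL, evL, ih]
    push_cast
    ring

theorem ev_exL {r : ℕ} (hr : 0 < r) (l : List ℤ) (x : K) : evL (exL r l) x = evL l (x ^ r) := by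
  induction l with
  | nil => simp [exL, evL]
  | cons a l ih =>
    obtain ⟨s, rfl⟩ : ∃ s, r = s + 1 := ⟨r - 1, by omega⟩
    simp only [exL, evL, ev_padL, ih, Nat.add_sub_cancel]
    ring

theorem ev_zL {r : ℕ} [CharP K r] (l : List ℤ) (h : zL r l = true) (x : K) : evL l x = 0 := by
  induction l with
  | nil => simp [evL]
  | cons a l ih =>
    simp only [zL, Bool.and_eq_true, beq_iff_eq] at h
    have h1 : (a : K) = 0 :=
      (CharP.intCast_eq_zero_iff K r a).2 (Int.dvd_of_emod_eq_zero h.1)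
    simp only [evL, h1, ih h.2]
    ring

theorem ev_powL {r : ℕ} [hr : Fact r.Prime] [CharP K r] (l : List ℤ) (x : K) :
    evL l (x ^ r) = (evL l x) ^ r := by
  induction l with
  | nil => simp [evL, zero_pow hr.out.ne_zero]
  | cons a l ih =>
    simp only [evL]
    rw [add_pow_char (R := K) (p := r), mul_pow, ih]
    congr 1
    have h0 : (((a ^ r - a : ℤ)) : K) = 0 := by
      refine (CharP.intCast_eq_zero_iff K r _).2 ?_
      have h1 : ((a ^ r - a : ℤ) : ZMod r) = 0 := by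
        push_cast
        rw [ZMod.pow_card, sub_self]
      exact_mod_cast (ZMod.intCast_zmod_eq_zero_iff_dvd (a ^ r - a) r).1 h1
    push_cast at h0
    exact (sub_eq_zero.1 h0).symm

end Lists

/-- the certificates for the iterated powers -/
def chkAll (r : ℕ) (cf : List ℤ) (HH QQ : List (List ℤ)) (n : ℕ) : Bool :=
  (List.range n).all (fun i =>
    zL r (addL (smulL (-1) (exL r (HH.getD i []))) (addL (HH.getD (i + 1) [])
      (mulL (QQ.getD i []) cf)))) && (HH.getD 0 [] == [0, 1]) && (HH.getD n [] == [0, 1])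

/-- the certificate for the absence of a common factor -/
def chkOne (r : ℕ) (cf h uu ww : List ℤ) : Bool :=
  zL r (addL [-1] (addL (mulL uu (addL h [0, -1])) (mulL ww cf)))

section Field

variable {r : ℕ} [hr : Fact r.Prime] {K : Type*} [Field K] [CharP K r] {a : K} {cf : List ℤ}
  {HH QQ : List (List ℤ)} {n : ℕ}

theorem ev_HH (hc : chkAll r cf HH QQ n = true) (ha : evL cf a = 0) (i : ℕ) (hi : i ≤ n) :
    evL (HH.getD i []) a = a ^ (r ^ i) := by
  unfold chkAll at hc
  simp only [Bool.and_eq_true, beq_iff_eq] at hc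
  induction i with
  | zero =>
    rw [hc.1.2]
    simp [evL]
  | succ i ih =>
    have h1 := List.all_eq_true.1 hc.1.1 i (List.mem_range.2 (by omega))
    have h2 := ev_zL (r := r) _ h1 a
    rw [ev_addL, ev_addL, ev_smulL, ev_mulL, ev_exL hr.out.pos, ha, ev_powL, ih (by omega)] at h2
    have h3 : evL (HH.getD (i + 1) []) a = (a ^ r ^ i) ^ r := by
      push_cast at h2
      linear_combination h2
    rw [h3, ← pow_mul, pow_succ]

theorem pow_n (hc : chkAll r cf HH QQ n = true) (ha : evL cf a = 0) : a ^ r ^ n = a := by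
  rw [← ev_HH hc ha n le_rfl]
  unfold chkAll at hc
  simp only [Bool.and_eq_true, beq_iff_eq] at hc
  rw [hc.2]
  simp [evL]

theorem pow_ne (hc : chkAll r cf HH QQ n = true) (ha : evL cf a = 0) {j : ℕ} (hj : j ≤ n)
    {uu ww : List ℤ} (h1 : chkOne r cf (HH.getD j []) uu ww = true) : a ^ r ^ j ≠ a := by
  intro h
  have h2 := ev_zL (r := r) _ h1 a
  have h3 := ev_HH hc ha j hj
  rw [ev_addL, ev_addL, ev_mulL, ev_mulL, ev_addL, ha, h3, h] at h2
  simp [evL] at h2

theorem dvd_of_pow {n : ℕ} (hn : 0 < n) (h1 : a ^ r ^ n = a)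
    (h2 : ∀ l : ℕ,
    l.Prime → l ∣ n → a ^ r ^ (n / l) ≠ a) {d : ℕ} (hd : a ^ r ^ d = a) : n ∣ d := by
  have iter : ∀ n : ℕ, (fun x : K => x ^ r)^[n] a = a ^ r ^ n := by
    intro n
    induction n with
    | zero => simp
    | succ n ih =>
      rw [Function.iterate_succ_apply', ih, ← pow_mul, pow_succ]
  have p0 : ∀ m : ℕ, a ^ r ^ m = a ↔ Function.IsPeriodicPt (fun x : K => x ^ r) m a := by
    intro m
    unfold Function.IsPeriodicPt Function.IsFixedPt
    rw [iter]
  set e := Function.minimalPeriod (fun x : K => x ^ r) a with he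
  have he1 : e ∣ n := ((p0 n).1 h1).minimalPeriod_dvd
  have he2 : e ∣ d := ((p0 d).1 hd).minimalPeriod_dvd
  by_cases hen : e = n
  · rw [← hen]
    exact he2
  · exfalso
    obtain ⟨u, hu⟩ := he1
    have hu1 : u ≠ 1 := by
      rintro rfl
      rw [mul_one] at hu
      exact hen hu.symm
    obtain ⟨l, hl, hlu⟩ := Nat.exists_prime_and_dvd hu1
    apply h2 l hl (hlu.trans ⟨e, by rw [hu]; ring⟩)
    rw [p0]
    obtain ⟨u', rfl⟩ := hlu
    have h5 : n / l = e * u' := by
      rw [hu, show e * (l * u') = l * (e * u') by ring, Nat.mul_div_cancel_left _ hl.pos]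
    rw [h5]
    exact (Function.isPeriodicPt_minimalPeriod _ a).mul_const u'

end Field

theorem irr_of {r : ℕ} [hr : Fact r.Prime] {k : Type} [Field k] [Finite k] [CharP k r] {m : ℕ}
    (hm : Nat.card k = r ^ m) {n : ℕ}
    (hmn : m.Coprime n) {R : k[X]} (hR : R.natDegree = n) (hn : 0 < n)
    (h : ∀ (F : Type) [Field F] [Algebra k F] [CharP F r] (a : F), aeval a R = 0 →
      ∀ d : ℕ, a ^ r ^ d = a → n ∣ d) : Irreducible R := by
  obtain ⟨g, hg, hgR⟩ := exists_irreducible_of_natDegree_ne_zero (f := R) (by omega)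
  have : Fact (Irreducible g) := ⟨hg⟩
  have hfin : Module.Finite k (AdjoinRoot g) :=
    Module.Finite.of_basis (AdjoinRoot.powerBasis hg.ne_zero).basis
  have : Finite (AdjoinRoot g) := Module.finite_of_finite k
  let : Fintype (AdjoinRoot g) := Fintype.ofFinite _
  have : CharP (AdjoinRoot g) r := charP_of_injective_algebraMap
    (algebraMap k (AdjoinRoot g)).injective r
  have hcard : Fintype.card (AdjoinRoot g) = r ^ (m * g.natDegree) := by
    rw [← Nat.card_eq_fintype_card, Module.natCard_eq_pow_finrank (K := k), hm,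
      (AdjoinRoot.powerBasis hg.ne_zero).finrank, AdjoinRoot.powerBasis_dim, pow_mul]
  have hroot : aeval (AdjoinRoot.root g) R = 0 := by
    obtain ⟨u, hu⟩ := hgR
    rw [hu, map_mul, AdjoinRoot.aeval_eq, AdjoinRoot.mk_self, zero_mul]
  have h1 := h _ (AdjoinRoot.root g) hroot (m * g.natDegree) (by
    rw [← hcard]
    exact FiniteField.pow_card _)
  have h2 : n ∣ g.natDegree := hmn.symm.dvd_of_dvd_mul_left h1
  obtain ⟨u, hu⟩ := hgR
  have hR0 : R ≠ 0 := by
    rintro rfl
    rw [natDegree_zero] at hR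
    omega
  have hu0 : u ≠ 0 := by
    rintro rfl
    rw [mul_zero] at hu
    exact hR0 hu
  have hle := congrArg natDegree hu
  rw [hR, natDegree_mul hg.ne_zero hu0] at hle
  have h3 := Nat.le_of_dvd hg.natDegree_pos h2
  have hu1 : IsUnit u := isUnit_iff_degree_eq_zero.2 (by
    rw [degree_eq_natDegree hu0]
    have : u.natDegree = 0 := by omega
    rw [this]
    rfl)
  rw [hu, irreducible_mul_isUnit hu1]
  exact hg

/-! ### The example over the field with eleven elements -/

/-- the coefficients -/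
def cfB : List ℤ := [1, 10, 7, 7, 6, 0, 1]

/-- the reductions of the iterated powers -/
def HHB : List (List ℤ) :=
  [[0, 1],
  [3, 1, 2, 4, 1, 4],
  [7, 10, 6, 10, 8, 7],
  [2, 2, 0, 10],
  [7, 4, 3, 7, 2, 7],
  [3, 4, 0, 2, 0, 4],
  [0, 1]]

/-- the quotients -/
def QQB : List (List ℤ) :=
  [[8, 7, 4, 5, 0, 1],
  [7, 8, 8, 3, 6, 6, 9, 9, 3, 3, 2, 0, 4, 7, 8, 5, 6, 5, 8, 4, 1, 3, 4, 2, 5, 7, 10, 10, 0,
    3, 0, 0, 2, 0, 8, 2, 0, 7, 9, 3, 4, 8, 4, 5, 10, 6, 5, 9, 0, 4],
  [5, 3, 1, 1, 9, 10, 6, 7, 5, 7, 10, 5, 4, 4, 8, 3, 6, 10, 5, 3, 8, 10, 2, 2, 8, 5, 3, 0,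
    4, 6, 7, 9, 1, 6, 0, 1, 1, 4, 0, 8, 7, 3, 7, 6, 1, 5, 6, 2, 0, 7],
  [6, 2, 1, 4, 0, 1, 5, 5, 6, 3, 6, 2, 8, 6, 4, 1, 9, 2, 10, 9, 10, 7, 3, 4, 7, 6, 0, 10],
  [4, 0, 5, 8, 4, 8, 0, 0, 3, 2, 10, 4, 1, 1, 2, 6, 2, 2, 10, 0, 1, 1, 1, 7, 10, 3, 9, 7, 5,
    0, 6, 3, 10, 2, 2, 10, 4, 4, 5, 8, 7, 3, 7, 6, 1, 5, 6, 2, 0, 7],
  [3, 2, 3, 1, 3, 7, 2, 1, 5, 7, 5, 0, 5, 4, 0, 7, 10, 3, 0, 6, 2, 1, 1, 7, 3, 1, 0, 6, 2,
    2, 9, 10, 9, 3, 1, 9, 6, 7, 8, 3, 4, 8, 4, 5, 10, 6, 5, 9, 0, 4]]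

theorem allB : chkAll 11 cfB HHB QQB 6 = true := by decide +kernel
theorem oneB3 : chkOne 11 cfB (HHB.getD 3 []) [6, 7, 3, 0, 2] [0, 2] = true := by decide +kernel
theorem oneB2 : chkOne 11 cfB (HHB.getD 2 []) [4, 8, 8, 6, 1, 10] [6, 2, 6, 1, 7] = true := by
  decide +kernel

instance : Fact (Nat.Prime 11) := ⟨by norm_num⟩

/-- `f = x ^ 3 + 8 x + 5` -/
noncomputable def fN : (ZMod 11)[X] := X ^ 3 + C 8 * X + C 5

/-- `c = t + 4` -/
noncomputable def cN : (ZMod 11)[X] := X + C 4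

theorem fN_monic : fN.Monic := by unfold fN; monicity!

theorem fN_deg : fN.natDegree = 3 := by unfold fN; compute_degree!

theorem cN_monic : cN.Monic := by unfold cN; monicity!

theorem cN_deg : cN.natDegree = 1 := by unfold cN; compute_degree!

theorem no_root_f : ∀ x : ZMod 11, x ^ 3 + 8 * x + 5 ≠ 0 := by decide

theorem no_root_P : ∀ x : ZMod 11, (x + 4) ^ 3 + 8 * (x + 4) + 5 - x ≠ 0 := by decide

theorem no_pow : ∀ v : ZMod 11, (4 : ZMod 11) ^ 3 + 8 * 4 + 5 ≠ v ^ 5 := by decide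

theorem fN_irr : Irreducible fN := by
  refine irreducible_of_degree_le_three_of_not_isRoot (by rw [fN_deg]; decide) fun x hx => ?_
  apply no_root_f x
  have h1 : fN.eval x = 0 := hx
  unfold fN at h1
  simpa using h1

theorem PN_deg : (fN.comp cN - X).natDegree = 3 := by
  have h1 : (fN.comp cN).natDegree = 3 := by rw [natDegree_comp, fN_deg, cN_deg]
  rw [natDegree_sub_eq_left_of_natDegree_lt (by rw [h1, natDegree_X]; norm_num), h1]

theorem PN_irr : Irreducible (fN.comp cN - X) := by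
  refine irreducible_of_degree_le_three_of_not_isRoot (by rw [PN_deg]; decide) fun x hx => ?_
  apply no_root_P x
  have h1 : (fN.comp cN - X).eval x = 0 := hx
  unfold fN cN at h1
  simpa using h1

/-- the cofactor -/
noncomputable def BN : (ZMod 11)[X] :=
  (fN + C 4) ^ 2 + (fN + C 4) * X + X ^ 2 + C 8

theorem BN_mul : (fN.comp cN - X).comp fN = (cN.comp fN - X) * BN := by
  have e1 : (fN.comp cN - X).comp fN = (fN + C 4) ^ 3 + C 8 * (fN + C 4) + C 5 - fN := by
    rw [sub_comp, X_comp]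
    congr 1
    unfold fN cN
    simp only [add_comp, mul_comp, pow_comp, X_comp, C_comp]
  have e2 : cN.comp fN = fN + C 4 := by
    unfold cN
    simp only [add_comp, X_comp, C_comp]
  rw [e1, e2]
  unfold BN
  generalize hu : fN + C 4 = u
  have h3 : fN = X ^ 3 + C 8 * X + C 5 := rfl
  rw [h3]
  ring

theorem BN_deg : BN.natDegree = 6 := by
  have h1 : (fN + C 4).natDegree = 3 := by rw [natDegree_add_C, fN_deg]
  have h2 : ((fN + C 4) ^ 2).natDegree = 6 := by rw [natDegree_pow, h1]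
  have h3 : ((fN + C 4) * X).natDegree = 4 := by
    rw [natDegree_mul_X, h1]
    intro h0
    rw [h0, natDegree_zero] at h1
    omega
  unfold BN
  rw [natDegree_add_C, natDegree_add_eq_left_of_natDegree_lt, natDegree_add_eq_left_of_natDegree_lt,
    h2]
  · rw [h3, h2]
    norm_num
  · rw [natDegree_add_eq_left_of_natDegree_lt, h2, natDegree_X_pow]
    · norm_num
    · rw [h3, h2]
      norm_num

theorem ev_BN {F : Type} [Field F] [Algebra (ZMod 11) F] [CharP F 11] (a : F) :
    evL cfB a = aeval a BN := by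
  have h11 : (11 : F) = 0 := by
    have := CharP.cast_eq_zero F 11
    exact_mod_cast this
  have hC : ∀ n : ℕ, aeval a (C ((n : ZMod 11)) : (ZMod 11)[X]) = (n : F) := by
    intro n
    rw [aeval_C, map_natCast]
  have h4 : aeval a (C 4 : (ZMod 11)[X]) = (4 : F) := by exact_mod_cast hC 4
  have h8 : aeval a (C 8 : (ZMod 11)[X]) = (8 : F) := by exact_mod_cast hC 8
  have h5 : aeval a (C 5 : (ZMod 11)[X]) = (5 : F) := by exact_mod_cast hC 5
  unfold BN fN
  simp only [map_add, map_mul, map_pow, aeval_X, h4, h8, h5]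
  simp only [cfB, evL]
  push_cast
  linear_combination ((-8)*a^0 + (-13)*a^1 + (-6)*a^2 + (-1)*a^3 + (-1)*a^4) * h11

theorem BN_irr : Irreducible BN := by
  refine irr_of (r := 11) (m := 1) (by rw [Nat.card_zmod, pow_one]) (by norm_num) BN_deg
    (by norm_num) fun F _ _ _ a ha d hd => ?_
  have hev : evL cfB a = 0 := by rw [ev_BN, ha]
  refine dvd_of_pow (r := 11) (by norm_num) (pow_n allB hev) (fun l hl hl6 => ?_) hd
  have hl' : l = 2 ∨ l = 3 := by
    have h1 : l ∣ 2 * 3 := hl6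
    rcases hl.dvd_mul.1 h1 with h2 | h2
    · exact Or.inl ((Nat.prime_dvd_prime_iff_eq hl Nat.prime_two).1 h2)
    · exact Or.inr ((Nat.prime_dvd_prime_iff_eq hl Nat.prime_three).1 h2)
  rcases hl' with rfl | rfl
  · exact pow_ne allB hev (by norm_num) oneB3
  · exact pow_ne allB hev (by norm_num) oneB2

theorem pairN : IsPair fN cN := ⟨PN_irr, BN, BN_irr, BN_mul⟩

theorem powN (v : ZMod 11) : fN.eval (cN.eval 0) ≠ v ^ 5 := by
  have h := no_pow v
  unfold fN cN
  simpa using h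

end Pool.Agent.X261.RO.Ce
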