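import Pool.Agent.X261.RO.Slv
import Pool.Agent.X261.TS.Fam

/-!
Twists of rank one: all the conclusions.
-/

set_option autoImplicit false
set_option linter.all false

open Polynomial IsDedekindDomain WithZero
open scoped nonZeroDivisors Classical

namespace Pool.Agent.X261.RO

open Pool.Agent.TH115.GD (IsTower Sep)
open Pool.Agent.Y160
open Pool.Agent.Y160.SE (IsPw SmoothC)
open Pool.Agent.Y160.SL (Concl)
open Pool.Agent.Y160.FT (Pres)
open Pool.Agent.Y160.T7
open Pool.Agent.Y228.FT
open Pool.Agent.X261.TS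
open Pool.Agent.Y160.SQ (Rt)
open Pool.Agent.Y160.RK (ptCl spanD gen_iter mem_spanD rank_lin)

section cont

variable {k K : Type} [Field k] [Field K] [Algebra k[X] K] [IsFractionRing k[X] K]

/-- The abscissa of the point. -/
noncomputable def absc (K : Type) [Field K] [Algebra k[X] K] (f : k[X][X]) (c : k[X]) (j : ℕ) : K :=
  algebraMap k[X] K (f.eval c ^ j * c)

theorem contP {Goal : Prop} {p q s : ℕ} (hp : p.Prime) (hq : q = p ^ (s + 1)) {f : k[X][X]}
    (hmon : f.Monic) (hcop : p.Coprime f.natDegree) (hn2 : 1 < f.natDegree)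
    (hirrK : Irreducible (f.map (algebraMap k[X] K))) {c : k[X]} (hPi : Irreducible (f.eval c))
    {j : ℕ} (hj : q ∣ f.natDegree * j + 1)
    (hR : ∃ (R : Type) (_ : CommRing R) (_ : IsDedekindDomain R) (_ : Algebra k R) (t x : R),
      Pres t x f ∧ PropT p k R ∧ ∃ B : R, Prime B ∧ ¬ B ∣ (aeval t c - x) ∧
        aeval t (f.eval c) = (aeval t c - x) * B)
    (cont : ∀ (R N : Type) [CommRing R] [IsDedekindDomain R] [Field N] [Algebra K N]
      [Algebra k[X] N] [IsScalarTower k[X] K N] [Algebra R N] [IsFractionRing R N]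
      [Algebra k[X] R] [IsScalarTower k[X] R N] [Algebra.IsIntegral k[X] R] (θ : N),
      aeval θ ((f.scaleRoots (f.eval c ^ j)).map (algebraMap k[X] K)) = 0 →
      IntermediateField.adjoin K {θ} = ⊤ →
      (∀ z : N, z ≠ 0 → (∀ v : HeightOneSpectrum R, algebraMap k[X] R (f.eval c ^ j) ∉ v.asIdeal →
        IsPw q (v.valuation N z)) → (∃ y : K, Algebra.norm K z = y ^ q) →
        ∃ (u : k) (g : N) (m : ℕ), u ≠ 0 ∧ g ≠ 0 ∧
          z = algebraMap k[X] N (C u) * g ^ q * (aeval θ (X - C (absc K f c j))) ^ m) →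
      (∀ (e : ℕ) (w : N), w ≠ 0 → ((aeval θ (X - C (absc K f c j)) ^ e) ^ f.natDegree = w ^ q ∨
        (aeval θ (X - C (absc K f c j)) ^ e) ^ f.natDegree = -w ^ q) → q ∣ e) → Goal) :
    Goal := by
  obtain ⟨R, _, _, _, u, x, hP, hsel, B, hB, hBA, hBP⟩ := hR
  have hsurj := hP.surj
  have hker := hP.ker
  have hn : f.natDegree ≠ 0 := by omega
  -- the algebra structures
  let φ : k[X] →+* R := ((aeval u : k[X] →ₐ[k] R) : k[X] →+* R)
  letI : Algebra k[X] R := φ.toAlgebra
  haveI : IsDomain R := inferInstance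
  have hinjR : Function.Injective (algebraMap k[X] R) := by
    rw [injective_iff_map_eq_zero]
    intro y hy
    have h1 : eval₂ φ x (C y) = 0 := by rw [eval₂_C]; exact hy
    have h2 := (hker _).1 h1
    by_contra hy0
    have h3 := natDegree_le_of_dvd h2 (C_ne_zero.2 hy0)
    rw [natDegree_C] at h3
    omega
  have hkX : ∀ y : k[X], algebraMap k[X] (FractionRing R) y = algebraMap R (FractionRing R) (φ y) :=
    fun y => IsScalarTower.algebraMap_apply k[X] R (FractionRing R) y
  have hinjN : Function.Injective (algebraMap k[X] (FractionRing R)) := by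
    intro y y' h
    rw [hkX, hkX] at h
    exact hinjR (IsFractionRing.injective R (FractionRing R) h)
  letI : Algebra K (FractionRing R) := (IsFractionRing.lift hinjN : K →+* FractionRing R).toAlgebra
  haveI : IsScalarTower k[X] K (FractionRing R) := IsScalarTower.of_algebraMap_eq fun y =>
    (IsFractionRing.lift_algebraMap hinjN y).symm
  have hroot : eval₂ φ x f = 0 := (hker _).2 dvd_rfl
  haveI : Algebra.IsIntegral k[X] R := by
    refine ⟨fun z => ?_⟩
    obtain ⟨P, rfl⟩ := hsurj z
    have hx : IsIntegral k[X] x := ⟨f, hmon, hroot⟩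
    have : eval₂ φ x P = aeval x P := rfl
    rw [this]
    exact adjoin_le_integralClosure hx (aeval_mem_adjoin_singleton k[X] x)
  let θ : FractionRing R := algebraMap R (FractionRing R) x
  have hθev : ∀ P : k[X][X], aeval θ (P.map (algebraMap k[X] K)) =
      algebraMap R (FractionRing R) (eval₂ φ x P) := by
    intro P
    rw [aeval_map_algebraMap]
    have h1 : algebraMap k[X] (FractionRing R) = (algebraMap R (FractionRing R)).comp φ :=
      RingHom.ext hkX
    rw [aeval_def, h1]
    exact (hom_eval₂ P φ (algebraMap R (FractionRing R)) x).symm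
  have hθ : aeval θ (f.map (algebraMap k[X] K)) = 0 := by
    rw [hθev, hroot, map_zero]
  have htop : IntermediateField.adjoin K {θ} = ⊤ := by
    rw [eq_top_iff]
    rintro z -
    have hR : ∀ r : R, algebraMap R (FractionRing R) r ∈ IntermediateField.adjoin K {θ} := by
      intro r
      obtain ⟨P, rfl⟩ := hsurj r
      rw [← hθev]
      exact IntermediateField.algebra_adjoin_le_adjoin K {θ}
        (aeval_mem_adjoin_singleton K θ)
    obtain ⟨a, b, hb, rfl⟩ := IsFractionRing.div_surjective (A := R) z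
    exact div_mem (hR a) (hR b)
  -- the degree
  have hθint : IsIntegral K θ := ⟨f.map (algebraMap k[X] K), hmon.map _, hθ⟩
  haveI : FiniteDimensional K (FractionRing R) := by
    have h1 : FiniteDimensional K (IntermediateField.adjoin K {θ}) :=
      IntermediateField.adjoin.finiteDimensional hθint
    rw [htop] at h1
    exact LinearEquiv.finiteDimensional
      (IntermediateField.topEquiv (F := K) (E := FractionRing R)).toLinearEquiv
  have hrank : Module.finrank K (FractionRing R) = f.natDegree := by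
    have h1 := IntermediateField.adjoin.finrank hθint
    rw [htop, IntermediateField.finrank_top'] at h1
    rw [h1, ← minpoly.eq_of_irreducible_of_monic hirrK hθ (hmon.map _), hmon.natDegree_map]
  have hq1 : 1 < q := by
    rw [hq]
    exact Nat.one_lt_pow (Nat.succ_ne_zero s) hp.one_lt
  -- the root of the twisted polynomial
  set D : k[X] := f.eval c ^ j with hDdef
  have hD : D ≠ 0 := pow_ne_zero j hPi.ne_zero
  have hDK : algebraMap k[X] K D ≠ 0 := fun h0 => hD (IsFractionRing.injective k[X] K
    (by rw [h0, map_zero]))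
  have hscale : (f.scaleRoots D).map (algebraMap k[X] K) =
      (f.map (algebraMap k[X] K)).scaleRoots (algebraMap k[X] K D) :=
    map_scaleRoots f D (algebraMap k[X] K) (by
      rw [hmon.leadingCoeff, map_one]
      exact one_ne_zero)
  have hDN : algebraMap K (FractionRing R) (algebraMap k[X] K D) ≠ 0 :=
    (_root_.map_ne_zero _).2 hDK
  have hval : aeval (algebraMap K (FractionRing R) (algebraMap k[X] K D) * θ)
      (X - C (absc K f c j)) = -(algebraMap k[X] (FractionRing R) (f.eval c ^ j) *
        algebraMap R (FractionRing R) (aeval u c - x)) := by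
    rw [map_sub, aeval_X, aeval_C]
    unfold absc
    rw [← IsScalarTower.algebraMap_apply, ← IsScalarTower.algebraMap_apply, map_sub, map_mul,
      ← hDdef]
    have e1 : algebraMap R (FractionRing R) (aeval u c) = algebraMap k[X] (FractionRing R) c :=
      (hkX c).symm
    have e2 : θ = algebraMap R (FractionRing R) x := rfl
    rw [e1, e2]
    ring
  have hA : Prime (aeval u c - x) := prime_A hP hmon hn2 hPi
  have hPR : algebraMap k[X] R (f.eval c) = (aeval u c - x) * B := hBP
  have hNA : Algebra.norm K (algebraMap R (FractionRing R) (aeval u c - x)) =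
      algebraMap k[X] K (f.eval c) := by
    have e1 : algebraMap R (FractionRing R) (aeval u c - x) =
        algebraMap K (FractionRing R) (algebraMap k[X] K c) - θ := by
      rw [map_sub, ← IsScalarTower.algebraMap_apply, hkX]
      rfl
    rw [e1, norm_sub (hmon.map _) hirrK hθ htop, eval_map_apply]
  refine cont R (FractionRing R) (algebraMap K (FractionRing R) (algebraMap k[X] K D) * θ) ?_ ?_ ?_
    ?_
  · rw [hscale]
    exact scaleRoots_aeval_eq_zero hθ
  · rw [eq_top_iff, ← htop, IntermediateField.adjoin_simple_le_iff]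
    have h1 := IntermediateField.mem_adjoin_simple_self K
      (algebraMap K (FractionRing R) (algebraMap k[X] K D) * θ)
    have h2 := mul_mem (inv_mem (IntermediateField.algebraMap_mem
      (IntermediateField.adjoin K {algebraMap K (FractionRing R) (algebraMap k[X] K D) * θ})
      (algebraMap k[X] K D))) h1
    rwa [inv_mul_cancel_left₀ hDN] at h2
  · intro z hz hv hnm
    rw [hval]
    refine solve1 (R := R) (K := K) hq1 hrank hPi hA hB hBA hPR hNA hj ?_ hz hv hnm
    intro z hz hv
    obtain ⟨c, w, hc, hw, e⟩ := propT_pow hp.ne_zero hsel (FractionRing R) (s + 1) z hz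
      (by rw [← hq]; exact hv)
    refine ⟨c, w, hc, hw, ?_⟩
    rw [e, hkX, hq]
    congr 2
    show _ = aeval u (C c)
    rw [aeval_C]
  · intro e w hw h
    rw [hval] at h
    refine order_point (R := R) (n := f.natDegree) ?_ hA hB hBA hPR hj hw h
    rw [hq]
    exact (Nat.Coprime.pow_left (s + 1) hcop).symm

end cont

section concl

variable {k k' K F : Type} [Field k] [Field k'] [Algebra k k'] [Field K] [Algebra k[X] K]
  [Field F] [Algebra k'[X] F] [IsFractionRing k'[X] F] [Algebra K F] [IsFractionRing k[X] K]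

theorem eval_scale (f : k[X][X]) (D c : k[X]) :
    (f.scaleRoots D).eval (D * c) = D ^ f.natDegree * f.eval c := by
  have h := scaleRoots_eval₂_mul (p := f) (RingHom.id k[X]) c D
  simpa using h

/-- All the conclusions. -/
theorem conclP (hT : IsTower k k' K F) {p q s : ℕ} (hp : p.Prime) (hq : q = p ^ (s + 1)) {ζ : k}
    (hζ : IsPrimitiveRoot ζ q) {f : k[X][X]} (hmon : f.Monic) (hcop : p.Coprime f.natDegree)
    (hn2 : 1 < f.natDegree) {c : k[X]} (hPi : Irreducible (f.eval c)) {j : ℕ}
    (hj : q ∣ f.natDegree * j + 1)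
    (hR : ∃ (R : Type) (_ : CommRing R) (_ : IsDedekindDomain R) (_ : Algebra k R) (t x : R),
      Pres t x f ∧ PropT p k R ∧ ∃ B : R, Prime B ∧ ¬ B ∣ (aeval t c - x) ∧
        aeval t (f.eval c) = (aeval t c - x) * B)
    (hsep : (f.map (algebraMap k[X] K)).Separable) (hsm : SmoothC f)
    (hirr : Irreducible ((f.map (algebraMap k[X] K)).map (algebraMap K F))) :
    Concl p q 1 k k' F ((f.scaleRoots (f.eval c ^ j)).map (algebraMap k[X] K)) := by
  have hirrK : Irreducible (f.map (algebraMap k[X] K)) :=
    Polynomial.Monic.irreducible_of_irreducible_map (algebraMap K F) _ (hmon.map _) hirr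
  obtain ⟨D, hDdef⟩ : ∃ D : k[X], D = f.eval c ^ j := ⟨_, rfl⟩
  have hD : D ≠ 0 := by
    rw [hDdef]
    exact pow_ne_zero j hPi.ne_zero
  have hDK : algebraMap k[X] K D ≠ 0 := fun h0 => hD (IsFractionRing.injective k[X] K
    (by rw [h0, map_zero]))
  have hscale : (f.scaleRoots D).map (algebraMap k[X] K) =
      (f.map (algebraMap k[X] K)).scaleRoots (algebraMap k[X] K D) :=
    map_scaleRoots f D (algebraMap k[X] K) (by
      rw [hmon.leadingCoeff, map_one]
      exact one_ne_zero)
  have hscale2 : ((f.scaleRoots D).map (algebraMap k[X] K)).map (algebraMap K F) =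
      ((f.map (algebraMap k[X] K)).map (algebraMap K F)).scaleRoots
        (algebraMap K F (algebraMap k[X] K D)) := by
    rw [hscale]
    refine map_scaleRoots _ _ (algebraMap K F) ?_
    rw [(hmon.map _).leadingCoeff, map_one]
    exact one_ne_zero
  have hmonS : (f.scaleRoots D).Monic := (monic_scaleRoots_iff D).2 hmon
  have hcopS : p.Coprime (f.scaleRoots D).natDegree := by rwa [natDegree_scaleRoots]
  have hsepS : ((f.scaleRoots D).map (algebraMap k[X] K)).Separable := by
    rw [hscale]
    exact sep_scale hDK hsep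
  have hirrKS : Irreducible ((f.scaleRoots D).map (algebraMap k[X] K)) := by
    rw [hscale]
    exact irr_scale hDK hirrK
  have hirrS : Irreducible (((f.scaleRoots D).map (algebraMap k[X] K)).map (algebraMap K F)) := by
    rw [hscale2]
    exact irr_scale ((_root_.map_ne_zero _).2 hDK) hirr
  obtain ⟨md, hsmS⟩ := smooth_scale hsm hD
  have hg := (SH.good_of hp (Nat.succ_pos s) hq hT hζ hmonS hcopS hsepS).1
  -- the point
  obtain ⟨m0, hm0⟩ := hj
  have hj' : q ∣ f.natDegree * j + 1 := ⟨m0, hm0⟩
  obtain ⟨V, hV⟩ : ∃ V : K[X], V = X - C (absc K f c j) := ⟨_, rfl⟩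
  obtain ⟨TK, hTK⟩ : ∃ TK : K[X], TK = C (algebraMap k[X] K (f.eval c ^ m0)) := ⟨_, rfl⟩
  have heval : ((f.scaleRoots D).map (algebraMap k[X] K)).eval (absc K f c j) =
      (algebraMap k[X] K (f.eval c ^ m0)) ^ q := by
    unfold absc
    rw [eval_map_apply, ← hDdef, eval_scale, ← map_pow, hDdef, ← pow_mul, ← pow_mul, ← pow_succ]
    congr 2
    rw [mul_comm m0 q, ← hm0, mul_comm j]
  have hPp : Irreducible V ∧ V.Monic ∧ ¬ V ∣ (f.scaleRoots D).map (algebraMap k[X] K) ∧
      V ∣ (f.scaleRoots D).map (algebraMap k[X] K) - TK ^ q := by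
    rw [hV]
    refine ⟨irreducible_X_sub_C _, monic_X_sub_C _, ?_, ?_⟩
    · rw [dvd_iff_isRoot, IsRoot.def, heval]
      refine pow_ne_zero _ fun h0 => pow_ne_zero m0 hPi.ne_zero (IsFractionRing.injective k[X] K
        (by rw [h0, map_zero]))
    · rw [dvd_iff_isRoot, IsRoot.def, eval_sub, heval, hTK, eval_pow, eval_C, sub_self]
  rw [← hDdef]
  refine ⟨SL.tateAt_of ?_, SL.shaTriv_of ?_, ?_⟩
  · refine contP (K := K) hp hq hmon hcop hn2 hirrK hPi hj' hR ?_
    rw [← hDdef]
    intro R N _ _ _ _ _ _ _ _ _ _ _ θ hθ htop hpts hord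
    refine mainCS (R := R) (N := N) hp (Nat.succ_pos s) hq SQ.hyps SQ.lhyps hT hζ hmonS hcopS
      hsepS hsmS hirrS hθ htop ?_
    intro z hz hv hn
    obtain ⟨u, w, m, hu, hw, e⟩ := hpts z hz hv hn
    refine ⟨u, w, Multiset.replicate m V, hu, hw, fun b hb => ?_, ?_⟩
    · rw [Multiset.eq_of_mem_replicate hb]
      exact ⟨hPp.2.1, TK, hPp.2.2.2⟩
    · rw [e, Multiset.prod_replicate, map_pow, hV]
  · refine contP (K := K) hp hq hmon hcop hn2 hirrK hPi hj' hR ?_
    rw [← hDdef]
    intro R N _ _ _ _ _ _ _ _ _ _ _ θ hθ htop hpts hord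
    refine mainShaS (R := R) (N := N) hp (Nat.succ_pos s) hq SQ.hyps SQ.lhyps
      Pool.Agent.Y141.SH.stShaLoc hT hζ hmonS hcopS hsepS hsmS hirrKS hθ htop ?_
    intro z hz hv hn
    obtain ⟨u, w, m, hu, hw, e⟩ := hpts z hz hv hn
    refine ⟨u, w, Multiset.replicate m V, hu, hw, fun b hb => ?_, ?_⟩
    · rw [Multiset.eq_of_mem_replicate hb]
      exact ⟨hPp.2.1, TK, hPp.2.2.2⟩
    · rw [e, Multiset.prod_replicate, map_pow, hV]
  · obtain ⟨DD, hDD⟩ : ∃ DD : Fin 1 → SQ.Jac q ((f.scaleRoots D).map (algebraMap k[X] K)) K,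
        DD = fun _ => ptCl q ((f.scaleRoots D).map (algebraMap k[X] K)) (V, TK) := ⟨_, rfl⟩
    have hgen : ∀ y : SQ.Jac q ((f.scaleRoots D).map (algebraMap k[X] K)) K,
        ∃ y' : SQ.Jac q ((f.scaleRoots D).map (algebraMap k[X] K)) K,
          y - SQ.pe hg K (1 - X) y' ∈ spanD hg DD := by
      intro y
      refine contP (K := K) hp hq hmon hcop hn2 hirrK hPi hj' hR ?_
      rw [← hDdef]
      intro R N _ _ _ _ _ _ _ _ _ _ _ θ hθ htop hpts hord
      obtain ⟨S', y', hSP, hx⟩ := mainGenS (R := R) (N := N) hp (Nat.succ_pos s) hq SQ.hyps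
        SQ.lhyps FT.inj_all Pool.Agent.Y141.SH.stShaLoc hT hζ hg hmonS hcopS hsepS hsmS hirrKS hθ
        htop {(V, TK)} (by
          rintro _ rfl
          exact hPp) (by
          intro z hz hv hn
          obtain ⟨u, w, m, hu, hw, e⟩ := hpts z hz hv hn
          refine ⟨u, w, Multiset.replicate m (V, TK), hu, hw, fun b hb => ?_, ?_⟩
          · rw [Multiset.eq_of_mem_replicate hb]
            exact Set.mem_singleton _
          · rw [e, SQ.dvP_eval, Multiset.map_replicate, Multiset.prod_replicate, hV]) y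
      refine ⟨y', ?_⟩
      rw [hx, add_sub_cancel_right]
      refine AddSubgroup.multiset_sum_mem _ _ fun c' hc' => ?_
      obtain ⟨P', hP', rfl⟩ := Multiset.mem_map.1 hc'
      rw [Set.mem_singleton_iff.1 (hSP P' hP')]
      have h1 := mem_spanD hg DD 0
      rw [hDD] at h1 ⊢
      exact h1
    have hrank : LinearIndependent ℤ (fun i : Fin 1 × Fin (q - 1) => ((SQ.sg hg K) ^ (i.2 : ℕ))
        (DD i.1)) := by
      refine contP (K := K) hp hq hmon hcop hn2 hirrK hPi hj' hR ?_
      rw [← hDdef]
      intro R N _ _ _ _ _ _ _ _ _ _ _ θ hθ htop hpts hord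
      -- the embedding
      have hs : IsSeparable K θ := hsepS.of_dvd (minpoly.dvd K θ hθ)
      have f3 : Algebra.IsSeparable K (IntermediateField.adjoin K {θ}) :=
        (IntermediateField.isSeparable_adjoin_simple_iff_isSeparable K N).2 hs
      rw [htop] at f3
      haveI : Algebra.IsSeparable K N :=
        Algebra.IsSeparable.of_algHom K (⊤ : IntermediateField K N)
          (IntermediateField.topEquiv (F := K) (E := N)).symm.toAlgHom
      let i : N →ₐ[K] Sep K := IsSepClosed.lift
      letI : Algebra N (Sep K) := i.toRingHom.toAlgebra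
      haveI : IsScalarTower K N (Sep K) :=
        IsScalarTower.of_algebraMap_eq fun x => (i.commutes x).symm
      have ha : Rt ((f.scaleRoots D).map (algebraMap k[X] K)) (algebraMap N (Sep K) θ) := by
        show aeval _ ((f.scaleRoots D).map (algebraMap k[X] K)) = 0
        rw [aeval_algebraMap_apply, hθ, map_zero]
      have hnat : ((f.scaleRoots D).map (algebraMap k[X] K)).natDegree = f.natDegree := by
        rw [hmonS.natDegree_map, natDegree_scaleRoots]
      have h1 := rank_lin (Ω := Sep K) (N := N) SQ.hyps hg FT.inj_all Pool.Agent.Y627.FT.stLin hp hq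
        hirrKS ha rfl (fun _ : Fin 1 => (V, TK)) (fun _ => hPp) (by
          intro e w hw0 hw
          rw [hnat, Fin.prod_univ_one, hV] at hw
          intro i
          rw [Fin.fin_one_eq_zero i]
          exact hord (e 0) w hw0 hw)
      rw [hDD]
      exact h1
    exact ⟨_, hrank, fun n y => gen_iter SQ.hyps hg hp hq _ hgen n y⟩

end concl

end Pool.Agent.X261.RO
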