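import Pool.Agent.X261.RO.Cont
import Pool.Agent.X261.TS.Fam

/-!
The families of rank one.
-/

set_option autoImplicit false
set_option linter.all false

open Polynomial IsDedekindDomain WithZero
open scoped nonZeroDivisors Classical

namespace Pool.Agent.X261.RO

open Pool.Agent.TH115.GD (IsTower)
open Pool.Agent.Y160
open Pool.Agent.Y160.SE (SmoothC)
open Pool.Agent.Y160.SL (Concl IsTowerCurve)
open Pool.Agent.Y160.FT (Pres)
open Pool.Agent.Y160.T7
open Pool.Agent.X261.TS (irrF graph tower_graph pres_graph monic_graph natDegree_graph)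

section fam

variable {k k' K F : Type} [Field k] [Field k'] [Algebra k k'] [Field K] [Algebra k[X] K]
  [Field F] [Algebra k'[X] F] [IsFractionRing k'[X] F] [Algebra K F] [IsFractionRing k[X] K]

/-- The twists of the tower curves. -/
theorem towerP (hT : IsTower k k' K F) {p s : ℕ} (hp : p.Prime) {ζ : k}
    (hζ : IsPrimitiveRoot ζ (p ^ (s + 1))) {f : k[X][X]} (hf : IsTowerCurve p f)
    (hmon : f.Monic) (hcop : p.Coprime f.natDegree) (hn : 2 < f.natDegree)
    (hsep : (f.map (algebraMap k[X] K)).Separable) {c : k[X]} (hPi : Irreducible (f.eval c))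
    (hcof : Irreducible ((f.map (AdjoinRoot.mk (f.eval c))) /ₘ
      (X - C (AdjoinRoot.mk (f.eval c) c)))) {j : ℕ} (hj : p ^ (s + 1) ∣ f.natDegree * j + 1) :
    Concl p (p ^ (s + 1)) 1 k k' F ((f.scaleRoots (f.eval c ^ j)).map (algebraMap k[X] K)) := by
  have hζ' : IsPrimitiveRoot (ζ ^ (p ^ s)) p :=
    hζ.pow (pow_pos hp.pos _) (by rw [pow_succ])
  refine conclP hT hp rfl hζ hmon hcop (by omega) hPi hj ?_ hsep
    (Pool.Agent.Y179.T7.st_smooth p k f hp (Pool.Agent.Y160.FT.p_ne hp rfl hζ) hf) (irrF hT hp hf hmon)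
  obtain ⟨R, i1, i2, i3, t, x, h, hR⟩ := tower_prop hp hζ' hf
  have hA := prime_A h hmon (by omega) hPi
  have hinj : aeval t (f.eval c) ≠ 0 := by
    intro h0
    have h1 : f ∣ C (f.eval c) := (h.ker _).1 (by
      rw [eval₂_C]
      exact h0)
    have h3 := natDegree_le_of_dvd h1 (C_ne_zero.2 hPi.ne_zero)
    rw [natDegree_C] at h3
    omega
  obtain ⟨B, hB⟩ := A_dvd_P (c := c) h
  exact ⟨R, i1, i2, i3, t, x, h, hR, B, prime_B h hPi (fac_mod f c) hcof hA.ne_zero hinj hB,
    not_dvd h hmon hn hPi (fac_mod f c) hA.ne_zero hB, hB⟩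

theorem eval_graph (f0 c : k[X]) : (graph f0).eval c = f0.comp c - X := by
  unfold graph
  rw [eval_sub, eval_C, eval_map]
  rfl

/-- The twists of `y ^ q = f(x) - t`. -/
theorem lineP (hT : IsTower k k' K F) {p s : ℕ} (hp : p.Prime) {ζ : k}
    (hζ : IsPrimitiveRoot ζ (p ^ (s + 1))) {f0 : k[X]} (hmon : f0.Monic)
    (hcop : p.Coprime f0.natDegree) (hn : 1 < f0.natDegree) (hder : derivative f0 ≠ 0) {c : k[X]}
    (hPi : Irreducible (f0.comp c - X)) {B : k[X]} (hB : Irreducible B)
    (hBP : (f0.comp c - X).comp f0 = (c.comp f0 - X) * B) (hBA : ¬ B ∣ (c.comp f0 - X))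
    {j : ℕ} (hj : p ^ (s + 1) ∣ f0.natDegree * j + 1) :
    Concl p (p ^ (s + 1)) 1 k k' F
      (((graph f0).scaleRoots ((f0.comp c - X) ^ j)).map (algebraMap k[X] K)) := by
  have hn0 : 0 < f0.natDegree := by omega
  have hmG := monic_graph hmon hn0
  have hirrF := irrF hT hp (tower_graph p f0) hmG
  have hirrK : Irreducible ((graph f0).map (algebraMap k[X] K)) :=
    Polynomial.Monic.irreducible_of_irreducible_map (algebraMap K F) _ (hmG.map _) hirrF
  have hsep : ((graph f0).map (algebraMap k[X] K)).Separable := by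
    rw [separable_iff_derivative_ne_zero hirrK, derivative_map]
    unfold graph
    rw [derivative_sub, derivative_C, sub_zero, derivative_map, Polynomial.map_map]
    rw [Polynomial.map_ne_zero_iff]
    · exact hder
    · exact (IsFractionRing.injective k[X] K).comp C_injective
  rw [← eval_graph] at hPi hBP ⊢
  refine conclP hT hp rfl hζ hmG (by rwa [natDegree_graph]) (by rwa [natDegree_graph]) hPi
    (by rwa [natDegree_graph]) ?_ hsep
    (Pool.Agent.Y179.T7.st_smooth p k _ hp (Pool.Agent.Y160.FT.p_ne hp rfl hζ) (tower_graph p f0)) hirrF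
  exact ⟨k[X], inferInstance, inferInstance, inferInstance, f0, X, pres_graph f0, propT_line hp,
    B, hB.prime, hBA, hBP⟩

end fam

section degrees

variable {k : Type} [Field k]

theorem not_dvd_line {f0 c : k[X]} (hn : 2 < f0.natDegree) (hc : 0 < c.natDegree)
    {B : k[X]} (hBP : (f0.comp c - X).comp f0 = (c.comp f0 - X) * B) :
    ¬ B ∣ (c.comp f0 - X) := by
  have h1 : (c.comp f0 - X).natDegree = c.natDegree * f0.natDegree := by
    rw [natDegree_sub_eq_left_of_natDegree_lt, natDegree_comp]
    rw [natDegree_comp, natDegree_X]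
    nlinarith
  have h2 : (f0.comp c - X).natDegree = f0.natDegree * c.natDegree := by
    rw [natDegree_sub_eq_left_of_natDegree_lt, natDegree_comp]
    rw [natDegree_comp, natDegree_X]
    nlinarith
  have hA0 : c.comp f0 - X ≠ 0 := fun h0 => by
    rw [h0, natDegree_zero] at h1
    nlinarith
  have hB0 : B ≠ 0 := by
    rintro rfl
    rw [mul_zero] at hBP
    have h3 := congrArg natDegree hBP
    rw [natDegree_comp, h2, natDegree_zero] at h3
    have : 0 < f0.natDegree * c.natDegree * f0.natDegree :=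
      Nat.mul_pos (Nat.mul_pos (by omega) hc) (by omega)
    omega
  intro h
  have h3 := natDegree_le_of_dvd h hA0
  have h4 := congrArg natDegree hBP
  rw [natDegree_comp, h2, natDegree_mul hA0 hB0, h1] at h4
  rw [h1] at h3
  have h5 : c.natDegree * f0.natDegree * f0.natDegree ≤ 2 * (c.natDegree * f0.natDegree) := by
    calc c.natDegree * f0.natDegree * f0.natDegree = f0.natDegree * c.natDegree * f0.natDegree := by
          ring
      _ = c.natDegree * f0.natDegree + B.natDegree := h4
      _ ≤ _ := by omega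
  have h6 : 0 < c.natDegree * f0.natDegree := Nat.mul_pos hc (by omega)
  nlinarith

end degrees

end Pool.Agent.X261.RO
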