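import Pool.Agent.X261.RO.Pair
import Pool.Agent.X261.TS.Kum
import Pool.Agent.TH943.CY.Cnt

/-!
The families of rank one in the Kummer towers.
-/

set_option autoImplicit false
set_option linter.all false

open Polynomial IsDedekindDomain
open scoped Classical

namespace Pool.Agent.X261.RO

open Pool.Agent.TH115.GD (IsTower)
open Pool.Agent.Y160.SL (Concl IsTowerCurve)
open Pool.Agent.Y160.FT (Pres)
open Pool.Agent.X261.TS

section expand

variable {k : Type} [Field k]

/-- `P(t ^ (p ^ b))` is irreducible if the constant coefficient is not a `p`-th power. -/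
theorem expand_irr {p : ℕ} (hp : p.Prime) (ho : Odd p) {P : k[X]} (hm : P.Monic)
    (hP : Irreducible P) (h0 : P.coeff 0 ≠ 0) (hc : ∀ v : k, P.coeff 0 ≠ v ^ p) (b : ℕ) :
    Irreducible (expand k (p ^ b) P) := by
  have hb : ∀ b : ℕ, (expand k (p ^ b) P).Monic ∧ (expand k (p ^ b) P).coeff 0 = P.coeff 0 := by
    intro b
    refine ⟨hm.expand (pow_pos hp.pos b), ?_⟩
    have h1 := coeff_expand_mul (pow_pos hp.pos b) P 0
    rwa [zero_mul] at h1
  induction b with
  | zero => rwa [pow_zero, expand_one]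
  | succ b ih =>
    have h1 := Pool.Agent.TH943.CY.irr_comp (k := k) hp ho
      ⟨expand k (p ^ b) P, (hb b).1, ih⟩ (by
        show (expand k (p ^ b) P).coeff 0 ≠ 0
        rw [(hb b).2]
        exact h0) (by
        rintro ⟨v, _, hv⟩
        have hv' : (expand k (p ^ b) P).coeff 0 = v ^ p := hv
        rw [(hb b).2] at hv'
        exact hc v hv')
    have h2 : expand k (p ^ (b + 1)) P = (expand k (p ^ b) P).comp (X ^ p) := by
      rw [pow_succ', expand_mul, expand_eq_comp_X_pow]
    rw [h2]
    exact h1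

end expand

section cof

variable {k R : Type} [Field k] [CommRing R] [IsDomain R] [Algebra k R] {t x : R} {f : k[X][X]}
  {c : k[X]}

/-- The converse of `prime_B`. -/
theorem irr_cof (h : Pres t x f) (hm : f.Monic) (hn : 1 < f.natDegree)
    (hP : Irreducible (f.eval c)) {g : (AdjoinRoot (f.eval c))[X]}
    (hg : f.map (AdjoinRoot.mk (f.eval c)) = (X - C (AdjoinRoot.mk (f.eval c) c)) * g) {B : R}
    (hBp : Prime B) (hB : aeval t (f.eval c) = (aeval t c - x) * B) : Irreducible g := by
  haveI : Fact (Irreducible (f.eval c)) := ⟨hP⟩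
  have hA := (prime_A h hm hn hP).ne_zero
  have key := fun p : k[X][X] => dvd_B h hg hA hB hP p
  refine Prime.irreducible ⟨?_, ?_, ?_⟩
  · rintro rfl
    rw [mul_zero] at hg
    exact (hm.map _).ne_zero hg
  · intro hu
    have h1 : g ∣ (1 : k[X][X]).map (AdjoinRoot.mk (f.eval c)) := by
      rw [Polynomial.map_one]
      exact hu.dvd
    rw [← key] at h1
    unfold ev at h1
    rw [eval₂_one] at h1
    exact hBp.not_unit (isUnit_of_dvd_one h1)
  · intro a b hab
    obtain ⟨a', rfl⟩ := Polynomial.map_surjective (AdjoinRoot.mk (f.eval c))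
      AdjoinRoot.mk_surjective a
    obtain ⟨b', rfl⟩ := Polynomial.map_surjective (AdjoinRoot.mk (f.eval c))
      AdjoinRoot.mk_surjective b
    rw [← Polynomial.map_mul, ← key] at hab
    rw [← key, ← key]
    unfold ev at hab ⊢
    rw [eval₂_mul] at hab
    exact hBp.dvd_or_dvd hab

end cof

section kum

variable {k : Type} [Field k]

theorem eval_kgraph (f0 c : k[X]) (N : ℕ) :
    (kgraph f0 N).eval (expand k N c) = expand k N ((graph f0).eval c) := by
  rw [eval_graph]
  unfold kgraph
  rw [eval_sub, eval_C, eval_map, map_sub, expand_X]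
  congr 1
  show f0.comp (expand k N c) = _
  rw [expand_eq_comp_X_pow, expand_eq_comp_X_pow, comp_assoc]

/-- The degree of the extension of the residue fields. -/
theorem finrank_pow {N : ℕ} {P Q : k[X]} (hP : Irreducible P) (hQ : Irreducible Q)
    (h : Q ∣ expand k N P) (hd : Q.natDegree = P.natDegree * N) :
    letI : Algebra (AdjoinRoot P) (AdjoinRoot Q) := (powMap h).toAlgebra
    Module.Finite (AdjoinRoot P) (AdjoinRoot Q) ∧
      Module.finrank (AdjoinRoot P) (AdjoinRoot Q) = N := by
  haveI : Fact (Irreducible P) := ⟨hP⟩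
  haveI : Fact (Irreducible Q) := ⟨hQ⟩
  letI : Algebra (AdjoinRoot P) (AdjoinRoot Q) := (powMap h).toAlgebra
  haveI : IsScalarTower k (AdjoinRoot P) (AdjoinRoot Q) := by
    refine IsScalarTower.of_algebraMap_eq fun c => ?_
    show AdjoinRoot.of Q c = powMap h (AdjoinRoot.of P c)
    unfold powMap
    rw [AdjoinRoot.lift_of]
  haveI : Module.Finite k (AdjoinRoot P) := (AdjoinRoot.powerBasis hP.ne_zero).finite
  haveI : Module.Finite k (AdjoinRoot Q) := (AdjoinRoot.powerBasis hQ.ne_zero).finite
  haveI : Module.Finite (AdjoinRoot P) (AdjoinRoot Q) :=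
    Module.Finite.of_restrictScalars_finite k (AdjoinRoot P) (AdjoinRoot Q)
  refine ⟨inferInstance, ?_⟩
  have h1 := Module.finrank_mul_finrank k (AdjoinRoot P) (AdjoinRoot Q)
  rw [(AdjoinRoot.powerBasis hP.ne_zero).finrank, (AdjoinRoot.powerBasis hQ.ne_zero).finrank,
    AdjoinRoot.powerBasis_dim, AdjoinRoot.powerBasis_dim, hd] at h1
  exact Nat.eq_of_mul_eq_mul_left hP.natDegree_pos h1

/-- The cofactor in the Kummer tower. -/
theorem cof_kum {f0 c : k[X]} {N : ℕ} (hN : 0 < N) (hP : Irreducible ((graph f0).eval c))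
    {g : (AdjoinRoot ((graph f0).eval c))[X]} (hgi : Irreducible g)
    (hg : (graph f0).map (AdjoinRoot.mk ((graph f0).eval c)) =
      (X - C (AdjoinRoot.mk ((graph f0).eval c) c)) * g) (hcop : N.Coprime g.natDegree)
    (hPN : Irreducible ((kgraph f0 N).eval (expand k N c))) :
    ∃ g' : (AdjoinRoot ((kgraph f0 N).eval (expand k N c)))[X], Irreducible g' ∧
      (kgraph f0 N).map (AdjoinRoot.mk ((kgraph f0 N).eval (expand k N c))) =
        (X - C (AdjoinRoot.mk ((kgraph f0 N).eval (expand k N c)) (expand k N c))) * g' := by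
  haveI : Fact (Irreducible ((graph f0).eval c)) := ⟨hP⟩
  haveI : Fact (Irreducible ((kgraph f0 N).eval (expand k N c))) := ⟨hPN⟩
  have hdvd : (kgraph f0 N).eval (expand k N c) ∣ expand k N ((graph f0).eval c) := by
    rw [eval_kgraph]
  have hdeg : ((kgraph f0 N).eval (expand k N c)).natDegree =
      ((graph f0).eval c).natDegree * N := by
    rw [eval_kgraph, natDegree_expand]
  obtain ⟨h1, h2⟩ := finrank_pow hP hPN hdvd hdeg
  letI : Algebra (AdjoinRoot ((graph f0).eval c))
    (AdjoinRoot ((kgraph f0 N).eval (expand k N c))) := (powMap hdvd).toAlgebra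
  haveI : Module.Finite (AdjoinRoot ((graph f0).eval c))
    (AdjoinRoot ((kgraph f0 N).eval (expand k N c))) := h1
  have hmk := powMap_mk hdvd
  have e1 : (kgraph f0 N).map (AdjoinRoot.mk ((kgraph f0 N).eval (expand k N c))) =
      ((graph f0).map (AdjoinRoot.mk ((graph f0).eval c))).map (powMap hdvd) := by
    rw [Polynomial.map_map, hmk]
    unfold kgraph graph
    rw [Polynomial.map_sub, Polynomial.map_sub, map_C, map_C, Polynomial.map_map,
      Polynomial.map_map]
    congr 1
    · congr 1
      apply RingHom.ext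
      intro y
      show AdjoinRoot.mk _ (C y) = AdjoinRoot.mk _ (expand k N (C y))
      rw [expand_C]
    · congr 1
      show AdjoinRoot.mk _ (X ^ N) = AdjoinRoot.mk _ (expand k N X)
      rw [expand_X]
  refine ⟨g.map (powMap hdvd), ?_, ?_⟩
  · refine Pool.Agent.X261.AA.irr_of_coprime hgi ?_
    rw [h2]
    exact hcop
  · rw [e1, hg, Polynomial.map_mul, Polynomial.map_sub, map_X, map_C]
    congr 3
    have h3 := congrArg (fun φ : k[X] →+* _ => φ c) hmk
    exact h3

theorem not_pow_ext {k' : Type} [Field k'] [Algebra k k'] [FiniteDimensional k k'] {p : ℕ}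
    (hp : p.Prime) (hd : (Module.finrank k k').Coprime p) {a : k} (ha : ∀ v : k, a ≠ v ^ p)
    (v : k') : algebraMap k k' a ≠ v ^ p := by
  intro h
  have ha0 : a ≠ 0 := by
    intro h0
    exact ha 0 (by rw [h0, zero_pow hp.ne_zero])
  have h1 := congrArg (Algebra.norm k) h
  rw [Algebra.norm_algebraMap, map_pow] at h1
  obtain ⟨x, hx⟩ := Nat.exists_mul_mod_eq_one_of_coprime hd hp.one_lt
  obtain ⟨hx0, hx⟩ := hx
  obtain ⟨y, hy⟩ : ∃ y, Module.finrank k k' * x = 1 + p * y := by
    refine ⟨Module.finrank k k' * x / p, ?_⟩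
    have := Nat.mod_add_div (Module.finrank k k' * x) p
    rw [hx] at this
    omega
  apply ha (Algebra.norm k v ^ x / a ^ y)
  have h2 : a ^ (Module.finrank k k' * x) = (Algebra.norm k v ^ x) ^ p := by
    rw [pow_mul, h1, ← pow_mul, ← pow_mul, mul_comm]
  rw [hy, pow_add, pow_one] at h2
  rw [div_pow, ← h2, ← pow_mul, mul_comm y p, mul_div_assoc,
    div_self (pow_ne_zero _ ha0), mul_one]

end kum

section main

variable {k k' K F : Type} [Field k] [Field k'] [Algebra k k'] [Field K] [Algebra k[X] K]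
  [Field F] [Algebra k'[X] F] [IsFractionRing k'[X] F] [Algebra K F] [IsFractionRing k[X] K]

/-- **The families of rank one in the Kummer towers.** -/
theorem kumP (hT : IsTower k k' K F) {p s : ℕ} (hp : p.Prime) {ζ : k}
    (hζ : IsPrimitiveRoot ζ (p ^ (s + 1))) {f0 c : k[X]} (hm : f0.Monic) (hn : 2 < f0.natDegree)
    (hirr : Irreducible f0) (hsep : f0.Separable)
    (hcop : p.Coprime (f0.natDegree * (f0.natDegree - 1))) (hcm : c.Monic)
    (hc : 0 < c.natDegree) (h : IsPair f0 c) (hpow : ∀ v : k, f0.eval (c.eval 0) ≠ v ^ p)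
    {j : ℕ} (hj : p ^ (s + 1) ∣ f0.natDegree * j + 1) (b : ℕ) :
    Concl p (p ^ (s + 1)) 1 k k' F (((kgraph f0 (p ^ b)).scaleRoots
      ((expand k (p ^ b) (f0.comp c - X)) ^ j)).map (algebraMap k[X] K)) := by
  obtain ⟨hP, B, hB, hBP⟩ := h
  have hcop1 : p.Coprime f0.natDegree := Nat.Coprime.coprime_mul_right_right hcop
  have hcop2 : p.Coprime (f0.natDegree - 1) := Nat.Coprime.coprime_mul_left_right hcop
  have ho : Odd p := by
    rcases hp.eq_two_or_odd' with h2 | h2
    · exfalso
      rw [h2] at hcop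
      have h3 : 2 ∣ f0.natDegree * (f0.natDegree - 1) := by
        obtain ⟨n, hn'⟩ : ∃ n, f0.natDegree = n + 1 := ⟨f0.natDegree - 1, by omega⟩
        rw [hn', Nat.add_sub_cancel, mul_comm]
        exact (Nat.even_mul_succ_self n).two_dvd
      have h4 := Nat.Coprime.eq_one_of_dvd hcop h3
      omega
    · exact h2
  have hdP : (f0.comp c - X).natDegree = f0.natDegree * c.natDegree := deg_P hn hc
  have hmP : (f0.comp c - X).Monic := by
    apply (hm.comp hcm (by omega)).sub_of_left
    rw [degree_X, degree_eq_natDegree (hm.comp hcm (by omega)).ne_zero, natDegree_comp]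
    have h5 : 1 < f0.natDegree * c.natDegree := by nlinarith
    exact_mod_cast h5
  have h0 : (f0.comp c - X).coeff 0 = f0.eval (c.eval 0) := by
    rw [coeff_zero_eq_eval_zero, eval_sub, eval_X, sub_zero, eval_comp]
  have h00 : (f0.comp c - X).coeff 0 ≠ 0 := by
    rw [h0]
    intro h1
    exact hpow 0 (by rw [h1, zero_pow hp.ne_zero])
  have hirrN := expand_irr hp ho hmP hP h00 (fun v => by rw [h0]; exact hpow v) b
  have heq : (kgraph f0 (p ^ b)).eval (expand k (p ^ b) c) =
      expand k (p ^ b) (f0.comp c - X) := by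
    rw [eval_kgraph, eval_graph]
  have hPg : Irreducible ((graph f0).eval c) := by rwa [eval_graph]
  have hmG := monic_graph hm (by omega : 0 < f0.natDegree)
  have hgi := irr_cof (c := c) (pres_graph f0) hmG (by rw [natDegree_graph]; omega) hPg
    (fac_mod (graph f0) c) hB.prime (by
      rw [eval_graph]
      exact hBP)
  obtain ⟨g, hg⟩ : ∃ g, g = ((graph f0).map (AdjoinRoot.mk ((graph f0).eval c))) /ₘ
    (X - C (AdjoinRoot.mk ((graph f0).eval c) c)) := ⟨_, rfl⟩
  have hfac := fac_mod (graph f0) c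
  rw [← hg] at hgi hfac
  haveI : Fact (Irreducible ((graph f0).eval c)) := ⟨hPg⟩
  have hgd : g.natDegree = f0.natDegree - 1 := by
    have h2 := congrArg natDegree hfac
    rw [hmG.natDegree_map, natDegree_graph, natDegree_mul (X_sub_C_ne_zero _) hgi.ne_zero,
      natDegree_X_sub_C] at h2
    omega
  have hPN : Irreducible ((kgraph f0 (p ^ b)).eval (expand k (p ^ b) c)) := by rwa [heq]
  obtain ⟨g', hg'i, hg'⟩ := cof_kum (pow_pos hp.pos b) hPg hgi hfac (by
    rw [hgd]
    exact hcop2.pow_left b) hPN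
  haveI : Fact (Irreducible ((kgraph f0 (p ^ b)).eval (expand k (p ^ b) c))) := ⟨hPN⟩
  have hmK := monic_kgraph hm (by omega : 0 < f0.natDegree) (p ^ b)
  have ht := tower_kgraph hp hirr hsep hcop1 b
  have hirrK : Irreducible ((kgraph f0 (p ^ b)).map (algebraMap k[X] K)) :=
    Polynomial.Monic.irreducible_of_irreducible_map (algebraMap K F) _ (hmK.map _)
      (irrF hT hp ht hmK)
  have hsepK : ((kgraph f0 (p ^ b)).map (algebraMap k[X] K)).Separable := by
    rw [separable_iff_derivative_ne_zero hirrK, derivative_map]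
    unfold kgraph
    rw [derivative_sub, derivative_C, sub_zero, derivative_map, Polynomial.map_map]
    rw [Polynomial.map_ne_zero_iff]
    · intro h0
      rw [Polynomial.separable_def, h0, isCoprime_zero_right] at hsep
      exact hirr.not_isUnit hsep
    · exact (IsFractionRing.injective k[X] K).comp C_injective
  have e : ((kgraph f0 (p ^ b)).map (AdjoinRoot.mk ((kgraph f0 (p ^ b)).eval
      (expand k (p ^ b) c)))) /ₘ (X - C (AdjoinRoot.mk ((kgraph f0 (p ^ b)).eval
        (expand k (p ^ b) c)) (expand k (p ^ b) c))) = g' := by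
    rw [hg', mul_divByMonic_cancel_left _ (monic_X_sub_C _)]
  have hfin := towerP hT hp hζ ht hmK (by rwa [natDegree_kgraph]) (by rwa [natDegree_kgraph])
    hsepK hPN (by rw [e]; exact hg'i) (j := j) (by rwa [natDegree_kgraph])
  rwa [heq] at hfin

end main

end Pool.Agent.X261.RO
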