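import Pool.Agent.X261.RO.Fam
import Pool.Agent.X261.AA.Ext
import Pool.Agent.X261.TW.Ex

/-!
Pairs of polynomials and extensions of the constants.
-/

set_option autoImplicit false
set_option linter.all false

open Polynomial IsDedekindDomain
open scoped Classical

namespace Pool.Agent.X261.RO

open Pool.Agent.TH115.GD (IsTower)
open Pool.Agent.Y160.SL (Concl)
open Pool.Agent.X261.TS (graph)

/-- The polynomial `P(t) = f(c(t)) - t` is irreducible, and `P(f(t))` is the product of `c(f(t)) - t` and
an irreducible polynomial. -/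
def IsPair {k : Type} [Field k] (f c : k[X]) : Prop :=
  Irreducible (f.comp c - X) ∧
    ∃ B : k[X], Irreducible B ∧ (f.comp c - X).comp f = (c.comp f - X) * B

section ext

variable {k k' : Type} [Field k] [Field k'] [Algebra k k']

theorem deg_A {f c : k[X]} (hn : 2 < f.natDegree) (hc : 0 < c.natDegree) :
    (c.comp f - X).natDegree = c.natDegree * f.natDegree := by
  rw [natDegree_sub_eq_left_of_natDegree_lt, natDegree_comp]
  rw [natDegree_comp, natDegree_X]
  nlinarith

theorem deg_P {f c : k[X]} (hn : 2 < f.natDegree) (hc : 0 < c.natDegree) :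
    (f.comp c - X).natDegree = f.natDegree * c.natDegree := by
  rw [natDegree_sub_eq_left_of_natDegree_lt, natDegree_comp]
  rw [natDegree_comp, natDegree_X]
  nlinarith

theorem deg_B {f c B : k[X]} (hn : 2 < f.natDegree) (hc : 0 < c.natDegree)
    (hB : B ≠ 0) (h : (f.comp c - X).comp f = (c.comp f - X) * B) :
    B.natDegree = f.natDegree * c.natDegree * (f.natDegree - 1) := by
  have hA := deg_A hn hc
  have hA0 : c.comp f - X ≠ 0 := fun h0 => by
    rw [h0, natDegree_zero] at hA
    nlinarith
  have h4 := congrArg natDegree h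
  rw [natDegree_comp, deg_P hn hc, natDegree_mul hA0 hB, hA] at h4
  obtain ⟨n, hn'⟩ : ∃ n, f.natDegree = n + 1 := ⟨f.natDegree - 1, by omega⟩
  rw [hn'] at h4 ⊢
  rw [Nat.add_sub_cancel]
  have h5 : (n + 1) * c.natDegree * (n + 1) = (n + 1) * c.natDegree * n + c.natDegree * (n + 1) := by
    ring
  omega

theorem pair_map {f c : k[X]} (hn : 2 < f.natDegree) (hc : 0 < c.natDegree) (h : IsPair f c)
    [FiniteDimensional k k']
    (hd : (Module.finrank k k').Coprime (f.natDegree * (f.natDegree - 1) * c.natDegree)) :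
    IsPair (f.map (algebraMap k k')) (c.map (algebraMap k k')) := by
  obtain ⟨h1, B, hB, h2⟩ := h
  have hdB := deg_B hn hc hB.ne_zero h2
  refine ⟨?_, B.map (algebraMap k k'), ?_, ?_⟩
  · have h3 := Pool.Agent.X261.AA.irr_of_coprime (k' := k') h1 (by
      rw [deg_P hn hc]
      refine Nat.Coprime.coprime_dvd_right ⟨f.natDegree - 1, ?_⟩ hd
      ring)
    rwa [Polynomial.map_sub, map_comp, map_X] at h3
  · refine Pool.Agent.X261.AA.irr_of_coprime (k' := k') hB (by
      rw [hdB]
      refine Nat.Coprime.coprime_dvd_right (dvd_of_eq ?_) hd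
      ring)
  · have h3 := congrArg (Polynomial.map (algebraMap k k')) h2
    rwa [map_comp, Polynomial.map_sub, map_comp, map_X, Polynomial.map_mul, Polynomial.map_sub,
      map_comp, map_X] at h3

end ext

section concl

variable {k k' K F : Type} [Field k] [Field k'] [Algebra k k'] [Field K] [Algebra k[X] K]
  [Field F] [Algebra k'[X] F] [IsFractionRing k'[X] F] [Algebra K F] [IsFractionRing k[X] K]

/-- The conclusions for a pair. -/
theorem pair_concl (hT : IsTower k k' K F) {p s : ℕ} (hp : p.Prime) {ζ : k}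
    (hζ : IsPrimitiveRoot ζ (p ^ (s + 1))) {f c : k[X]} (hmon : f.Monic)
    (hcop : p.Coprime f.natDegree) (hn : 2 < f.natDegree) (hder : derivative f ≠ 0)
    (hc : 0 < c.natDegree) (h : IsPair f c) {j : ℕ} (hj : p ^ (s + 1) ∣ f.natDegree * j + 1) :
    Concl p (p ^ (s + 1)) 1 k k' F
      (((graph f).scaleRoots ((f.comp c - X) ^ j)).map (algebraMap k[X] K)) := by
  obtain ⟨h1, B, hB, h2⟩ := h
  exact lineP hT hp hζ hmon hcop (by omega) hder h1 hB h2 (not_dvd_line hn hc h2) hj

end concl

section example5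

/-- The example over the fields with `5 ^ m` elements. -/
theorem pair_five (k : Type) [Field k] [Finite k] [CharP k 5] {m : ℕ} (hm : Nat.card k = 5 ^ m)
    (h6 : m.Coprime 6) : IsPair (X ^ 3 + X : k[X]) (X ^ 3 + 4 * X + 1) := by
  have h := Pool.Agent.X261.TW.Ex.irr k hm h6
  refine ⟨h.1, _, h.2, ?_⟩
  exact Pool.Agent.X261.TW.P1_mul_P2 (Pool.Agent.X261.TW.Ex.fE_monic k) (Pool.Agent.X261.TW.Ex.fE_deg k)

end example5

end Pool.Agent.X261.RO
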