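import Pool.Agent.X261.TS.Main

/-!
A prime `P = f(c(t), t)` of `k[t]`, and the two primes above it in the ring of the curve `f = 0`.
-/

set_option autoImplicit false
set_option linter.all false

open Polynomial IsDedekindDomain WithZero
open scoped nonZeroDivisors Classical

namespace Pool.Agent.X261.RO

open Pool.Agent.Y160.SE (IsPw)
open Pool.Agent.Y160.FT (Pres)
open Pool.Agent.Y228.FT
open Pool.Agent.X261.TS (dvd_pres exists_exp exists_shift)

section primes

variable {k R : Type} [Field k] [CommRing R] [IsDomain R] [Algebra k R] {t x : R} {f : k[X][X]}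
  {c : k[X]}

/-- The function `p(x, t)`. -/
noncomputable abbrev ev (t x : R) (p : k[X][X]) : R :=
  eval₂ ((aeval t : k[X] →ₐ[k] R) : k[X] →+* R) x p

theorem ev_A (t x : R) (c : k[X]) : ev t x (C c - X) = aeval t c - x := by
  unfold ev
  rw [eval₂_sub, eval₂_C, eval₂_X]
  rfl

theorem ev_C (t x : R) (c : k[X]) : ev t x (C c) = aeval t c := by
  unfold ev
  rw [eval₂_C]
  rfl

theorem dvd_A (h : Pres t x f) (p : k[X][X]) :
    (aeval t c - x) ∣ ev t x p ↔ f.eval c ∣ p.eval c := by
  constructor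
  · rintro ⟨r, hr⟩
    obtain ⟨r', rfl⟩ := h.surj r
    have h1 : ev t x (p - (C c - X) * r') = 0 := by
      show eval₂ _ x (p - (C c - X) * r') = 0
      rw [eval₂_sub, eval₂_mul]
      have e := ev_A t x c
      unfold ev at e hr
      rw [e, hr]
      exact sub_self _
    obtain ⟨g, hg⟩ := (h.ker _).1 h1
    have h2 := congrArg (eval c) hg
    rw [eval_sub, eval_mul, eval_sub, eval_C, eval_X, sub_self, zero_mul, sub_zero, eval_mul] at h2
    exact ⟨_, h2⟩
  · rintro ⟨g, hg⟩
    obtain ⟨g1, hg1⟩ : (X - C c) ∣ p - C (p.eval c) := by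
      rw [dvd_iff_isRoot, IsRoot.def, eval_sub, eval_C, sub_self]
    obtain ⟨g2, hg2⟩ : (X - C c) ∣ f - C (f.eval c) := by
      rw [dvd_iff_isRoot, IsRoot.def, eval_sub, eval_C, sub_self]
    have h1 : p = (C c - X) * (C g * g2 - g1) + f * C g := by
      rw [hg, C_mul] at hg1
      linear_combination hg1 - C g * hg2
    refine ⟨ev t x (C g * g2 - g1), ?_⟩
    have h2 : ev t x p = ev t x ((C c - X) * (C g * g2 - g1) + f * C g) := congrArg _ h1
    rw [h2]
    unfold ev
    rw [eval₂_add, eval₂_mul, eval₂_mul, (h.ker f).2 dvd_rfl, zero_mul, add_zero, eval₂_sub,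
      eval₂_C, eval₂_X]
    rfl

theorem A_dvd_P (h : Pres t x f) : (aeval t c - x) ∣ aeval t (f.eval c) := by
  rw [← ev_C t x (f.eval c), dvd_A h, eval_C]

theorem prime_A (h : Pres t x f) (hm : f.Monic) (hn : 1 < f.natDegree)
    (hP : Irreducible (f.eval c)) : Prime (aeval t c - x) := by
  refine ⟨?_, ?_, ?_⟩
  · intro h0
    have h1 : f ∣ (C c - X) := (h.ker _).1 (by
      have := ev_A t x c
      unfold ev at this
      rw [this, h0])
    have h2 : (C c - X : k[X][X]) ≠ 0 := by
      rw [← neg_sub, neg_ne_zero]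
      exact X_sub_C_ne_zero c
    have h3 := natDegree_le_of_dvd h1 h2
    rw [← neg_sub, natDegree_neg, natDegree_X_sub_C] at h3
    omega
  · intro hu
    have h1 : (aeval t c - x) ∣ ev t x (1 : k[X][X]) := by
      unfold ev
      rw [eval₂_one]
      exact hu.dvd
    rw [dvd_A h, eval_one] at h1
    exact hP.not_isUnit (isUnit_of_dvd_one h1)
  · intro a b hab
    obtain ⟨a', ha'⟩ := h.surj a
    obtain ⟨b', hb'⟩ := h.surj b
    rw [← ha', ← hb', ← eval₂_mul] at hab
    rw [← ha', ← hb']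
    have h1 := (dvd_A (c := c) h (a' * b')).1 hab
    rw [eval_mul] at h1
    rcases hP.prime.dvd_or_dvd h1 with h2 | h2
    · exact Or.inl ((dvd_A h a').2 h2)
    · exact Or.inr ((dvd_A h b').2 h2)

theorem fac_mod (f : k[X][X]) (c : k[X]) : f.map (AdjoinRoot.mk (f.eval c)) =
    (X - C (AdjoinRoot.mk (f.eval c) c)) *
      ((f.map (AdjoinRoot.mk (f.eval c))) /ₘ (X - C (AdjoinRoot.mk (f.eval c) c))) := by
  rw [eq_comm, mul_divByMonic_eq_iff_isRoot, IsRoot.def, eval_map_apply, AdjoinRoot.mk_self]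

theorem dvd_B (h : Pres t x f) {g : (AdjoinRoot (f.eval c))[X]}
    (hg : f.map (AdjoinRoot.mk (f.eval c)) = (X - C (AdjoinRoot.mk (f.eval c) c)) * g) {B : R}
    (hA : aeval t c - x ≠ 0) (hB : aeval t (f.eval c) = (aeval t c - x) * B)
    (hP : Irreducible (f.eval c)) (p : k[X][X]) :
    B ∣ ev t x p ↔ g ∣ p.map (AdjoinRoot.mk (f.eval c)) := by
  haveI : Fact (Irreducible (f.eval c)) := ⟨hP⟩
  have h1 : B ∣ ev t x p ↔ aeval t (f.eval c) ∣ ev t x ((C c - X) * p) := by
    rw [hB]
    have e : ev t x ((C c - X) * p) = (aeval t c - x) * ev t x p := by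
      rw [← ev_A t x]
      unfold ev
      rw [eval₂_mul]
    rw [e]
    exact (mul_dvd_mul_iff_left hA).symm
  rw [h1]
  unfold ev
  have e : (C c - X : k[X][X]).map (AdjoinRoot.mk (f.eval c)) =
      -(X - C (AdjoinRoot.mk (f.eval c) c)) := by
    rw [Polynomial.map_sub, map_C, map_X, neg_sub]
  rw [dvd_pres h, hg, Polynomial.map_mul, e, neg_mul, dvd_neg]
  exact mul_dvd_mul_iff_left (X_sub_C_ne_zero _)

theorem prime_B (h : Pres t x f) (hP : Irreducible (f.eval c))
    {g : (AdjoinRoot (f.eval c))[X]}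
    (hg : f.map (AdjoinRoot.mk (f.eval c)) = (X - C (AdjoinRoot.mk (f.eval c) c)) * g)
    (hgi : Irreducible g) {B : R} (hA : aeval t c - x ≠ 0) (hP0 : aeval t (f.eval c) ≠ 0)
    (hB : aeval t (f.eval c) = (aeval t c - x) * B) : Prime B := by
  haveI : Fact (Irreducible (f.eval c)) := ⟨hP⟩
  refine ⟨?_, ?_, ?_⟩
  · rintro rfl
    rw [mul_zero] at hB
    exact hP0 hB
  · intro hu
    have h1 : B ∣ ev t x (1 : k[X][X]) := by
      unfold ev
      rw [eval₂_one]
      exact hu.dvd
    rw [dvd_B h hg hA hB hP, Polynomial.map_one] at h1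
    exact hgi.not_isUnit (isUnit_of_dvd_one h1)
  · intro a b hab
    obtain ⟨a', ha'⟩ := h.surj a
    obtain ⟨b', hb'⟩ := h.surj b
    rw [← ha', ← hb', ← eval₂_mul] at hab
    rw [← ha', ← hb']
    have h1 := (dvd_B h hg hA hB hP (a' * b')).1 hab
    rw [Polynomial.map_mul] at h1
    rcases hgi.prime.dvd_or_dvd h1 with h2 | h2
    · exact Or.inl ((dvd_B h hg hA hB hP a').2 h2)
    · exact Or.inr ((dvd_B h hg hA hB hP b').2 h2)

theorem not_dvd (h : Pres t x f) (hm : f.Monic) (hn : 2 < f.natDegree)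
    (hP : Irreducible (f.eval c)) {g : (AdjoinRoot (f.eval c))[X]}
    (hg : f.map (AdjoinRoot.mk (f.eval c)) = (X - C (AdjoinRoot.mk (f.eval c) c)) * g)
    {B : R} (hA : aeval t c - x ≠ 0)
    (hB : aeval t (f.eval c) = (aeval t c - x) * B) : ¬ B ∣ (aeval t c - x) := by
  haveI : Fact (Irreducible (f.eval c)) := ⟨hP⟩
  intro h0
  rw [← ev_A t x, dvd_B h hg hA hB hP] at h0
  have h1 : g.natDegree = f.natDegree - 1 := by
    have h2 := congrArg natDegree hg
    rw [hm.natDegree_map] at h2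
    have hg0 : g ≠ 0 := by
      rintro rfl
      rw [mul_zero, natDegree_zero] at h2
      omega
    rw [natDegree_mul (X_sub_C_ne_zero _) hg0, natDegree_X_sub_C] at h2
    omega
  have h3 : ((C c - X : k[X][X]).map (AdjoinRoot.mk (f.eval c))) ≠ 0 := by
    rw [Polynomial.map_sub, map_C, map_X, ← neg_sub, neg_ne_zero]
    exact X_sub_C_ne_zero _
  have h4 := natDegree_le_of_dvd h0 h3
  rw [Polynomial.map_sub, map_C, map_X, ← neg_sub, natDegree_neg, natDegree_X_sub_C] at h4
  omega

end primes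

section norm

variable {K N : Type} [Field K] [Field N] [Algebra K N]

/-- The norm of `c - θ`. -/
theorem norm_sub {f : K[X]} (hf : f.Monic) (hirr : Irreducible f) {θ : N} (hθ : aeval θ f = 0)
    (htop : IntermediateField.adjoin K {θ} = ⊤) (c : K) :
    Algebra.norm K (algebraMap K N c - θ) = f.eval c := by
  have hint : IsIntegral K θ := ⟨f, hf, hθ⟩
  have hmin : minpoly K θ = f := (minpoly.eq_of_irreducible_of_monic hirr hθ hf).symm
  let pb0 := IntermediateField.adjoin.powerBasis hint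
  let e : IntermediateField.adjoin K {θ} ≃ₐ[K] N :=
    (IntermediateField.equivOfEq htop).trans IntermediateField.topEquiv
  let pb : PowerBasis K N := pb0.map e
  have hgen : pb.gen = θ := by
    show e pb0.gen = θ
    rw [IntermediateField.adjoin.powerBasis_gen]
    rfl
  have h1 : (Algebra.leftMulMatrix pb.basis θ).charpoly = f := by
    have := charpoly_leftMulMatrix pb
    rw [hgen, hmin] at this
    exact this
  rw [Algebra.norm_eq_matrix_det pb.basis, map_sub, AlgHom.commutes, ← h1, Matrix.eval_charpoly]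
  rfl

end norm

section solve

variable {k K R N : Type} [Field k] [CommRing R] [IsDedekindDomain R] [Field N] [Algebra R N]
  [IsFractionRing R N] [Algebra k[X] R] [Field K] [Algebra k[X] K] [IsFractionRing k[X] K]
  [Algebra K N] [Algebra k[X] N] [IsScalarTower k[X] K N] [IsScalarTower k[X] R N]

theorem eq_of_dvd {a b : R} (ha : Prime a) (hb : Prime b) (h : a ∣ b) : b ∣ a := by
  obtain ⟨u, hu⟩ := h
  rcases hb.irreducible.isUnit_or_isUnit hu with h1 | h1
  · exact absurd h1 ha.not_unit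
  · obtain ⟨w, rfl⟩ := h1
    exact ⟨↑w⁻¹, by rw [hu, mul_assoc, Units.mul_inv, mul_one]⟩

/-- The adjustment at two primes. -/
theorem adjust2 {q : ℕ} (hq : 0 < q) {P : k[X]} {A B : R} (hA : Prime A) (hB : Prime B)
    (hBA : ¬ B ∣ A) (hP : algebraMap k[X] R P = A * B) {z : N} (hz : z ≠ 0)
    (hv : ∀ v : HeightOneSpectrum R, algebraMap k[X] R P ∉ v.asIdeal →
      IsPw q (v.valuation N z)) :
    ∃ a b : ℕ, ∀ v : HeightOneSpectrum R,
      IsPw q (v.valuation N (z * (algebraMap R N A) ^ a * (algebraMap R N B) ^ b)) := by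
  have hAB : ¬ A ∣ B := fun h => hBA (eq_of_dvd hA hB h)
  obtain ⟨a, ha⟩ := exists_exp (γ := (vpr hA).valuation N z) ((Valuation.ne_zero_iff _).2 hz)
  obtain ⟨a', ha'⟩ := exists_shift hq a
  obtain ⟨b, hb⟩ := exists_exp (γ := (vpr hB).valuation N z) ((Valuation.ne_zero_iff _).2 hz)
  obtain ⟨b', hb'⟩ := exists_shift hq b
  refine ⟨a', b', fun v => ?_⟩
  rw [map_mul, map_mul, map_pow, map_pow, HeightOneSpectrum.valuation_of_algebraMap,
    HeightOneSpectrum.valuation_of_algebraMap]
  by_cases h1 : v.intValuation A = 1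
  · by_cases h2 : v.intValuation B = 1
    · rw [h1, h2, one_pow, one_pow, mul_one, mul_one]
      refine hv v fun h3 => ?_
      rw [hP] at h3
      rcases v.isPrime.mem_or_mem h3 with h4 | h4
      · exact ((v.intValuation_lt_one_iff_mem _).2 h4).ne h1
      · exact ((v.intValuation_lt_one_iff_mem _).2 h4).ne h2
    · rw [h1, one_pow, mul_one, eq_vpr hB v h2, vpr_self, hb, ← exp_nsmul, ← exp_add]
      have e : b + b' • (-1 : ℤ) = b - b' := by
        rw [nsmul_eq_mul]
        ring
      rw [e]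
      exact hb'
  · have h2 := eq_vpr hA v h1
    have h3 : (vpr hA).intValuation B = 1 := (vpr_eq_one hA B).2 hAB
    rw [h2, h3, one_pow, mul_one, vpr_self, ha, ← exp_nsmul, ← exp_add]
    have e : a + a' • (-1 : ℤ) = a - a' := by
      rw [nsmul_eq_mul]
      ring
    rw [e]
    exact ha'

theorem dvd_exp {P α β : k[X]} (hP : Irreducible P) {u : k} (hu : u ≠ 0) {q e : ℕ} (hα : α ≠ 0)
    (hβ : β ≠ 0) (h : P ^ e * β ^ q = C u * α ^ q) : q ∣ e := by
  have hfin : ∀ Z : k[X], Z ≠ 0 → FiniteMultiplicity P Z := fun Z hZ =>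
    FiniteMultiplicity.of_prime_left hP.prime hZ
  have h1 := congrArg (multiplicity P) h
  have hu' : (C u : k[X]) ≠ 0 := C_ne_zero.2 hu
  rw [multiplicity_mul hP.prime (hfin _ (mul_ne_zero (pow_ne_zero _ hP.ne_zero)
      (pow_ne_zero _ hβ))), multiplicity_mul hP.prime (hfin _ (mul_ne_zero hu'
      (pow_ne_zero _ hα)))] at h1
  rw [(hfin α hα).multiplicity_pow hP.prime, (hfin β hβ).multiplicity_pow hP.prime,
    (hfin P hP.ne_zero).multiplicity_pow hP.prime] at h1
  have h2 : multiplicity P (C u) = 0 := multiplicity_eq_zero.2 fun h3 =>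
    hP.not_isUnit (isUnit_of_dvd_unit h3 (isUnit_C.2 (isUnit_iff_ne_zero.2 hu)))
  have h3 : multiplicity P P = 1 := by
    have h5 : ¬ P ^ 2 ∣ P := by
      intro h6
      have h7 := natDegree_le_of_dvd h6 hP.ne_zero
      rw [natDegree_pow] at h7
      have := hP.natDegree_pos
      omega
    exact multiplicity_eq_of_dvd_of_not_dvd (by rw [pow_one]) h5
  rw [h2, h3, mul_one, zero_add] at h1
  refine (Nat.dvd_add_left (dvd_mul_right q (multiplicity P β))).1 ?_
  rw [h1]
  exact dvd_mul_right _ _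

end solve

end Pool.Agent.X261.RO
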