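import Pool.Agent.X261.RO.Prm
import Pool.Agent.X261.TW.Fld
import Pool.Agent.Y160.RK.Key
import Pool.Agent.Y627.FT.Lin

/-!
Functions whose divisor is divisible by `q` away from the two primes above `P`.
-/

set_option autoImplicit false
set_option linter.all false

open Polynomial IsDedekindDomain WithZero
open scoped nonZeroDivisors Classical

namespace Pool.Agent.X261.RO

open Pool.Agent.Y160.SE (IsPw)
open Pool.Agent.Y160.FT (Pres)
open Pool.Agent.Y160.T7
open Pool.Agent.Y228.FT

section solve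

variable {k K R N : Type} [Field k] [CommRing R] [IsDedekindDomain R] [Field N] [Algebra R N]
  [IsFractionRing R N] [Algebra k[X] R] [Field K] [Algebra k[X] K] [IsFractionRing k[X] K]
  [Algebra K N] [Algebra k[X] N] [IsScalarTower k[X] K N] [IsScalarTower k[X] R N]

theorem solve1 [FiniteDimensional K N] {q : ℕ} (hq : 1 < q) {n : ℕ}
    (hn : Module.finrank K N = n) {P : k[X]} (hPi : Irreducible P) {A B : R} (hA : Prime A)
    (hB : Prime B) (hBA : ¬ B ∣ A) (hP : algebraMap k[X] R P = A * B)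
    (hNA : Algebra.norm K (algebraMap R N A) = algebraMap k[X] K P) {j : ℕ} (hnj : q ∣ n * j + 1)
    (hR : ∀ z : N, z ≠ 0 → (∀ v : HeightOneSpectrum R, IsPw q (v.valuation N z)) →
      ∃ (u : k) (g0 : N), u ≠ 0 ∧ g0 ≠ 0 ∧ z = algebraMap k[X] N (C u) * g0 ^ q)
    {z : N} (hz : z ≠ 0) (hv : ∀ v : HeightOneSpectrum R, algebraMap k[X] R (P ^ j) ∉ v.asIdeal →
      IsPw q (v.valuation N z)) (hnm : ∃ y : K, Algebra.norm K z = y ^ q) :
    ∃ (u : k) (g : N) (m : ℕ), u ≠ 0 ∧ g ≠ 0 ∧ z = algebraMap k[X] N (C u) * g ^ q *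
      (-(algebraMap k[X] N (P ^ j) * algebraMap R N A)) ^ m := by
  have hinjK := IsFractionRing.injective k[X] K
  have hinjN := IsFractionRing.injective R N
  have hAN : algebraMap R N A ≠ 0 := fun h0 => hA.ne_zero (hinjN (by rw [h0, map_zero]))
  have hBN : algebraMap R N B ≠ 0 := fun h0 => hB.ne_zero (hinjN (by rw [h0, map_zero]))
  have hPK : algebraMap k[X] K P ≠ 0 := fun h0 => hPi.ne_zero (hinjK (by rw [h0, map_zero]))
  obtain ⟨a, b, hab⟩ := adjust2 (N := N) (zero_lt_one.trans hq) hA hB hBA hP hz fun v hv1 => by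
    refine hv v fun h => hv1 ?_
    rw [map_pow] at h
    exact v.isPrime.mem_of_pow_mem j h
  obtain ⟨u, w, hu, hw, e1⟩ := hR _ (mul_ne_zero (mul_ne_zero hz (pow_ne_zero a hAN))
    (pow_ne_zero b hBN)) hab
  obtain ⟨y, hy⟩ := hnm
  have hy0 : y ≠ 0 := by
    rintro rfl
    rw [zero_pow (by omega)] at hy
    exact hz (Algebra.norm_eq_zero_iff.1 hy)
  have hPN : algebraMap R N A * algebraMap R N B = algebraMap K N (algebraMap k[X] K P) := by
    rw [← map_mul, ← hP, ← IsScalarTower.algebraMap_apply, ← IsScalarTower.algebraMap_apply]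
  have hNP : Algebra.norm K (algebraMap R N A) * Algebra.norm K (algebraMap R N B) =
      algebraMap k[X] K P ^ n := by
    rw [← map_mul, hPN, Algebra.norm_algebraMap, hn]
  have huN : algebraMap k[X] N (C u) = algebraMap K N (algebraMap k[X] K (C u)) :=
    IsScalarTower.algebraMap_apply k[X] K N _
  have e2 := congrArg (Algebra.norm K) e1
  rw [map_mul, map_mul, map_pow, map_pow, hy, map_mul, huN, Algebra.norm_algebraMap, hn,
    map_pow, hNA] at e2
  rw [hNA] at hNP
  -- the exponents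
  have e3 : algebraMap k[X] K P ^ (a + n * b + b * (q - 1)) * y ^ q =
      algebraMap k[X] K (C (u ^ n)) * (Algebra.norm K w * algebraMap k[X] K P ^ b) ^ q := by
    have h1 : algebraMap k[X] K P ^ (n * b) = algebraMap k[X] K P ^ b *
        Algebra.norm K (algebraMap R N B) ^ b := by
      rw [pow_mul, ← hNP, mul_pow]
    have h2 : algebraMap k[X] K P ^ (b * (q - 1)) * algebraMap k[X] K P ^ b =
        (algebraMap k[X] K P ^ b) ^ q := by
      rw [← pow_add, ← pow_mul]
      congr 1
      obtain ⟨q', rfl⟩ : ∃ q', q = q' + 1 := ⟨q - 1, by omega⟩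
      rw [Nat.add_sub_cancel]
      ring
    rw [pow_add, pow_add, h1, mul_pow, ← h2, C_pow, map_pow]
    calc algebraMap k[X] K P ^ a * (algebraMap k[X] K P ^ b *
          Algebra.norm K (algebraMap R N B) ^ b) * algebraMap k[X] K P ^ (b * (q - 1)) * y ^ q
        = (y ^ q * algebraMap k[X] K P ^ a * Algebra.norm K (algebraMap R N B) ^ b) *
          (algebraMap k[X] K P ^ (b * (q - 1)) * algebraMap k[X] K P ^ b) := by ring
      _ = _ := by
          rw [e2]
          ring
  obtain ⟨α, β, hβ, hαβ⟩ := Pool.Agent.X261.TW.exists_frac (k := k) K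
    (Algebra.norm K w * algebraMap k[X] K P ^ b / y)
  have hNw : Algebra.norm K w ≠ 0 := fun h0 => hw (Algebra.norm_eq_zero_iff.1 h0)
  have hβK : algebraMap k[X] K β ≠ 0 := fun h0 => hβ (hinjK (by rw [h0, map_zero]))
  have hα : α ≠ 0 := by
    rintro rfl
    rw [map_zero] at hαβ
    exact mul_ne_zero (div_ne_zero (mul_ne_zero hNw (pow_ne_zero b hPK)) hy0) hβK hαβ
  have e4 : P ^ (a + n * b + b * (q - 1)) * β ^ q = C (u ^ n) * α ^ q := by
    apply hinjK
    rw [map_mul (algebraMap k[X] K), map_mul (algebraMap k[X] K), map_pow (algebraMap k[X] K) P,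
      map_pow (algebraMap k[X] K) β, map_pow (algebraMap k[X] K) α, ← hαβ, mul_pow, div_pow]
    have hyq : y ^ q ≠ 0 := pow_ne_zero q hy0
    field_simp
    linear_combination e3
  obtain ⟨s, hs⟩ := dvd_exp hPi (pow_ne_zero n hu) hα hβ e4
  obtain ⟨c0, hc0⟩ := hnj
  -- the representation
  have hPjN : algebraMap k[X] N (P ^ j) = (algebraMap R N A * algebraMap R N B) ^ j := by
    rw [hPN, map_pow, IsScalarTower.algebraMap_apply k[X] K N]
  refine ⟨u * (-1) ^ (n * b), w * algebraMap R N A ^ b / (algebraMap R N A ^ (c0 * b + s) *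
    algebraMap R N B ^ (c0 * b)), n * b, mul_ne_zero hu (pow_ne_zero _ (neg_ne_zero.2 one_ne_zero)),
    div_ne_zero (mul_ne_zero hw (pow_ne_zero _ hAN))
      (mul_ne_zero (pow_ne_zero _ hAN) (pow_ne_zero _ hBN)), ?_⟩
  have h5 : (C (u * (-1) ^ (n * b)) : k[X]) = C u * (-1) ^ (n * b) := by
    rw [C_mul, C_pow, C_neg, C_1]
  rw [hPjN, h5, map_mul, map_pow, map_neg, map_one, neg_pow (_ * _) (n * b), div_pow]
  have h6 : ((-1 : N) ^ (n * b)) * (-1) ^ (n * b) = 1 := by
    rw [← mul_pow, neg_one_mul, neg_neg, one_pow]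
  have hden : (algebraMap R N A ^ (c0 * b + s) * algebraMap R N B ^ (c0 * b)) ^ q ≠ 0 :=
    pow_ne_zero _ (mul_ne_zero (pow_ne_zero _ hAN) (pow_ne_zero _ hBN))
  rw [mul_div_assoc', div_mul_eq_mul_div, eq_div_iff hden]
  have h7 : (algebraMap R N A ^ (c0 * b + s) * algebraMap R N B ^ (c0 * b)) ^ q =
      algebraMap R N A ^ (a + (j + 1) * (n * b) + b * q) * algebraMap R N B ^ (b + j * (n * b)) := by
    rw [mul_pow, ← pow_mul, ← pow_mul]
    congr 2
    · have h8 : b * (q - 1) + b = b * q := by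
        obtain ⟨q', rfl⟩ : ∃ q', q = q' + 1 := ⟨q - 1, by omega⟩
        rw [Nat.add_sub_cancel]
        ring
      calc (c0 * b + s) * q = (q * c0) * b + q * s := by ring
        _ = (n * j + 1) * b + (a + n * b + b * (q - 1)) := by rw [hc0, hs]
        _ = a + (j + 1) * (n * b) + (b * (q - 1) + b) := by ring
        _ = _ := by rw [h8]
    · calc c0 * b * q = (q * c0) * b := by ring
        _ = (n * j + 1) * b := by rw [hc0]
        _ = _ := by ring
  rw [h7]
  calc z * (algebraMap R N A ^ (a + (j + 1) * (n * b) + b * q) *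
        algebraMap R N B ^ (b + j * (n * b)))
      = (z * algebraMap R N A ^ a * algebraMap R N B ^ b) *
        (algebraMap R N A ^ ((j + 1) * (n * b)) * algebraMap R N A ^ (b * q) *
          algebraMap R N B ^ (j * (n * b))) := by
        rw [pow_add, pow_add, pow_add]
        ring
    _ = (algebraMap k[X] N (C u) * w ^ q) *
        (algebraMap R N A ^ ((j + 1) * (n * b)) * algebraMap R N A ^ (b * q) *
          algebraMap R N B ^ (j * (n * b))) * (((-1 : N) ^ (n * b)) * (-1) ^ (n * b)) := by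
        rw [e1, h6, mul_one]
    _ = _ := by
        have h9 : algebraMap R N A ^ ((j + 1) * (n * b)) = algebraMap R N A ^ (j * (n * b)) *
            algebraMap R N A ^ (n * b) := by
          rw [← pow_add]
          congr 1
          ring
        have h10 : ((algebraMap R N A * algebraMap R N B) ^ j * algebraMap R N A) ^ (n * b) =
            algebraMap R N A ^ (j * (n * b)) * algebraMap R N B ^ (j * (n * b)) *
              algebraMap R N A ^ (n * b) := by
          rw [mul_pow, ← pow_mul, mul_pow]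
        rw [h9, h10, mul_pow w, ← pow_mul]
        ring

/-- The order of the function of the point. -/
theorem order_point {q : ℕ} {n : ℕ} (hcop : n.Coprime q) {P : k[X]} {A B : R} (hA : Prime A)
    (hB : Prime B) (hBA : ¬ B ∣ A) (hP : algebraMap k[X] R P = A * B) {j : ℕ}
    (hnj : q ∣ n * j + 1) {e : ℕ} {w : N} (hw : w ≠ 0)
    (h : ((-(algebraMap k[X] N (P ^ j) * algebraMap R N A)) ^ e) ^ n = w ^ q ∨
      ((-(algebraMap k[X] N (P ^ j) * algebraMap R N A)) ^ e) ^ n = -w ^ q) : q ∣ e := by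
  have h1 : (vpr hB).valuation N (-(algebraMap k[X] N (P ^ j) * algebraMap R N A)) =
      exp (-(j : ℤ)) := by
    have e1 : algebraMap k[X] N (P ^ j) * algebraMap R N A = algebraMap R N (A ^ (j + 1) * B ^ j) := by
      rw [IsScalarTower.algebraMap_apply k[X] R N, map_pow, hP, ← map_mul]
      congr 1
      ring
    have hA1 : (vpr hB).intValuation A = 1 := (vpr_eq_one hB A).2 hBA
    rw [Valuation.map_neg, e1, HeightOneSpectrum.valuation_of_algebraMap, map_mul, map_pow, map_pow,
      hA1, one_pow, one_mul, vpr_self, ← exp_nsmul]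
    congr 1
    rw [nsmul_eq_mul]
    ring
  have h2 : (exp (-(j : ℤ)) ^ e) ^ n = (vpr hB).valuation N w ^ q := by
    rcases h with h | h
    · rw [← h1, ← map_pow ((vpr hB).valuation N), ← map_pow ((vpr hB).valuation N), h,
        map_pow ((vpr hB).valuation N) w]
    · rw [← h1, ← map_pow ((vpr hB).valuation N), ← map_pow ((vpr hB).valuation N), h,
        Valuation.map_neg, map_pow ((vpr hB).valuation N) w]
  obtain ⟨γ, hγ⟩ := Pool.Agent.X261.TS.exists_exp (γ := (vpr hB).valuation N w)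
    ((Valuation.ne_zero_iff _).2 hw)
  rw [hγ, ← exp_nsmul, ← exp_nsmul, ← exp_nsmul] at h2
  have h3 := exp_injective h2
  rw [nsmul_eq_mul, nsmul_eq_mul, nsmul_eq_mul] at h3
  have h4 : (q : ℤ) ∣ (n * j : ℕ) * (e : ℤ) := by
    refine ⟨-γ, ?_⟩
    push_cast
    linear_combination -h3
  have h5 : (q : ℤ) ∣ (n * j + 1 : ℕ) * (e : ℤ) := Dvd.dvd.mul_right (by exact_mod_cast hnj) _
  have h6 : (q : ℤ) ∣ (e : ℤ) := by
    have h7 := dvd_sub h5 h4
    have h8 : ((n * j + 1 : ℕ) : ℤ) * e - ((n * j : ℕ) : ℤ) * e = e := by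
      push_cast
      ring
    rwa [h8] at h7
  exact_mod_cast h6

end solve

end Pool.Agent.X261.RO
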